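import Mathlib

section

set_option autoImplicit false

open Finset Filter Topology

namespace Pool.Agent.MP_ba6658_pr

/-- Clamp to the unit interval. -/
noncomputable def cl (x : ℝ) : ℝ := max 0 (min x 1)

/-- The tent function, supported on the unit interval. -/
noncomputable def tent (x : ℝ) : ℝ := (cl (2 * x) - cl (2 * x - 1)) / 2

/-- The covariance kernel of the Brownian bridge, extended by zero. -/
noncomputable def ker (x y : ℝ) : ℝ := cl (min x y) - cl x * cl y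

lemma cl_mono : Monotone cl := fun _ _ h => max_le_max le_rfl (min_le_min h le_rfl)

lemma cl_nonneg (x : ℝ) : 0 ≤ cl x := le_max_left _ _

lemma cl_le_one (x : ℝ) : cl x ≤ 1 := max_le zero_le_one (min_le_right _ _)

lemma cl_cont : Continuous cl := by unfold cl; fun_prop

lemma cl_of_mem {x : ℝ} (h0 : 0 ≤ x) (h1 : x ≤ 1) : cl x = x := by
  unfold cl; rw [min_eq_left h1, max_eq_right h0]

lemma cl_of_nonpos {x : ℝ} (h0 : x ≤ 0) : cl x = 0 := by
  unfold cl; exact max_eq_left (le_trans (min_le_left _ _) h0)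

lemma cl_of_one_le {x : ℝ} (h0 : 1 ≤ x) : cl x = 1 := by
  unfold cl; rw [min_eq_right h0, max_eq_right zero_le_one]

lemma cl_split (x : ℝ) : cl x = (cl (2 * x) + cl (2 * x - 1)) / 2 := by
  rcases le_total x 0 with h | h
  · rw [cl_of_nonpos h, cl_of_nonpos (by linarith), cl_of_nonpos (by linarith)]; ring
  rcases le_total x (1 / 2) with h2 | h2
  · rw [cl_of_mem h (by linarith), cl_of_mem (by linarith) (by linarith),
      cl_of_nonpos (by linarith)]; ring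
  rcases le_total x 1 with h3 | h3
  · rw [cl_of_mem h h3, cl_of_one_le (by linarith), cl_of_mem (by linarith) (by linarith)]; ring
  · rw [cl_of_one_le h3, cl_of_one_le (by linarith), cl_of_one_le (by linarith)]; ring

lemma tent_cont : Continuous tent := by
  unfold tent
  have := cl_cont
  fun_prop

lemma tent_nonneg (x : ℝ) : 0 ≤ tent x := by
  unfold tent
  have := cl_mono (show 2 * x - 1 ≤ 2 * x by linarith)
  linarith

lemma ker_rec (x y : ℝ) :
    ker x y = tent x * tent y + ker (2 * x) (2 * y) / 2 + ker (2 * x - 1) (2 * y - 1) / 2 := by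
  unfold ker tent
  have h1 : min (2 * x) (2 * y) = 2 * min x y := by
    rcases le_total x y with h | h
    · rw [min_eq_left h, min_eq_left (by linarith)]
    · rw [min_eq_right h, min_eq_right (by linarith)]
  have h2 : min (2 * x - 1) (2 * y - 1) = 2 * min x y - 1 := by
    rcases le_total x y with h | h
    · rw [min_eq_left h, min_eq_left (by linarith)]
    · rw [min_eq_right h, min_eq_right (by linarith)]
  rw [h1, h2, cl_split (min x y), cl_split x, cl_split y]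
  ring

lemma ker_nonneg (x y : ℝ) : 0 ≤ ker x y := by
  unfold ker
  have := cl_nonneg x
  have := cl_nonneg y
  have := cl_le_one x
  have := cl_le_one y
  rcases le_total x y with h | h
  · rw [min_eq_left h]; nlinarith
  · rw [min_eq_right h]; nlinarith

lemma ker_le (x y : ℝ) : ker x y ≤ cl x - cl (x - 1) := by
  unfold ker
  have h0 := cl_nonneg x
  have h1 := cl_nonneg y
  have h2 := cl_le_one y
  rcases le_total x 1 with h | h
  · rw [cl_of_nonpos (show x - 1 ≤ 0 by linarith)]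
    have := cl_mono (min_le_left x y)
    nlinarith
  · have h3 := cl_mono (min_le_right x y)
    have h4 := cl_le_one (x - 1)
    rw [cl_of_one_le h]
    linarith

lemma sum_telescope_le (x : ℝ) (n : ℕ) :
    ∑ k ∈ range n, (cl (x - k) - cl (x - k - 1)) ≤ 1 := by
  have : ∑ k ∈ range n, (cl (x - k) - cl (x - k - 1)) = cl x - cl (x - n) := by
    induction n with
    | zero => simp
    | succ n ih => rw [sum_range_succ, ih]; push_cast; ring_nf
  rw [this]
  have := cl_le_one x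
  have := cl_nonneg (x - n)
  linarith

lemma tent_le (x : ℝ) : tent x ≤ cl x - cl (x - 1) := by
  rw [cl_split x, cl_split (x - 1)]
  unfold tent
  have h1 := cl_mono (show 2 * (x - 1) ≤ 2 * x - 1 by linarith)
  have h2 := cl_mono (show 2 * (x - 1) - 1 ≤ 2 * x - 1 by linarith)
  linarith

lemma sum_tent_le (x : ℝ) (n : ℕ) : ∑ k ∈ range n, tent (x - k) ≤ 1 :=
  le_trans (sum_le_sum fun k _ => tent_le (x - k)) (sum_telescope_le x n)

lemma sum_ker_le (x y : ℝ) (n : ℕ) : ∑ k ∈ range n, ker (x - k) (y - k) ≤ 1 :=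
  le_trans (sum_le_sum fun k _ => ker_le (x - k) (y - k)) (sum_telescope_le x n)

lemma sum_range_two_mul (f : ℕ → ℝ) (n : ℕ) :
    ∑ k ∈ range (2 * n), f k = ∑ k ∈ range n, (f (2 * k) + f (2 * k + 1)) := by
  induction n with
  | zero => simp
  | succ n ih =>
    rw [show 2 * (n + 1) = 2 * n + 1 + 1 by ring, sum_range_succ, sum_range_succ, ih,
      sum_range_succ]
    ring

/-- Remainder after `N` levels. -/
noncomputable def rem (N : ℕ) (u v : ℝ) : ℝ :=
  (1 / 2) ^ N * ∑ k ∈ range (2 ^ N), ker (2 ^ N * u - k) (2 ^ N * v - k)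

lemma rem_zero (u v : ℝ) : rem 0 u v = ker u v := by simp [rem]

lemma rem_succ (N : ℕ) (u v : ℝ) :
    rem N u v = (1 / 2) ^ N * ∑ k ∈ range (2 ^ N), tent (2 ^ N * u - k) * tent (2 ^ N * v - k)
      + rem (N + 1) u v := by
  unfold rem
  rw [pow_succ' 2 N, sum_range_two_mul, pow_succ (1 / 2 : ℝ) N, mul_assoc, ← mul_add, mul_sum,
    mul_sum, ← sum_add_distrib, mul_sum]
  refine sum_congr rfl fun k _ => ?_
  rw [ker_rec]
  push_cast
  have e1 : (2 : ℝ) * (2 ^ N * u - k) = 2 ^ (N + 1) * u - 2 * k := by ring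
  have e2 : (2 : ℝ) * (2 ^ N * v - k) = 2 ^ (N + 1) * v - 2 * k := by ring
  have e3 : (2 : ℝ) ^ (N + 1) * u - 2 * k - 1 = 2 ^ (N + 1) * u - (2 * k + 1) := by ring
  have e4 : (2 : ℝ) ^ (N + 1) * v - 2 * k - 1 = 2 ^ (N + 1) * v - (2 * k + 1) := by ring
  rw [e1, e2, e3, e4]
  ring

lemma rem_tendsto (u v : ℝ) : Tendsto (fun N => rem N u v) atTop (𝓝 0) := by
  have h : Tendsto (fun N : ℕ => (1 / 2 : ℝ) ^ N) atTop (𝓝 0) :=
    tendsto_pow_atTop_nhds_zero_of_lt_one (by norm_num) (by norm_num)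
  refine squeeze_zero (fun N => ?_) (fun N => ?_) h
  · exact mul_nonneg (by positivity) (sum_nonneg fun k _ => ker_nonneg _ _)
  · unfold rem
    have := sum_ker_le (2 ^ N * u) (2 ^ N * v) (2 ^ N)
    have h0 : (0 : ℝ) ≤ (1 / 2) ^ N := by positivity
    nlinarith

/-- Normalised Schauder function of level `a` and position `k`. -/
noncomputable def psi (a k : ℕ) (u : ℝ) : ℝ := (√2)⁻¹ ^ a * tent (2 ^ a * u - k)

lemma psi_cont (a k : ℕ) : Continuous (psi a k) := by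
  unfold psi
  have := tent_cont
  fun_prop

lemma psi_nonneg (a k : ℕ) (u : ℝ) : 0 ≤ psi a k u :=
  mul_nonneg (by positivity) (tent_nonneg _)

lemma sum_psi_le (a : ℕ) (u : ℝ) : ∑ k ∈ range (2 ^ a), psi a k u ≤ (√2)⁻¹ ^ a := by
  unfold psi
  rw [← mul_sum]
  have := sum_tent_le (2 ^ a * u) (2 ^ a)
  have h0 : (0 : ℝ) ≤ (√2)⁻¹ ^ a := by positivity
  nlinarith

lemma sum_psi_mul (N : ℕ) (u v : ℝ) :
    ∑ a ∈ range N, ∑ k ∈ range (2 ^ a), psi a k u * psi a k v = ker u v - rem N u v := by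
  induction N with
  | zero => simp [rem_zero]
  | succ N ih =>
    rw [sum_range_succ, ih, rem_succ N u v]
    have : ∑ k ∈ range (2 ^ N), psi N k u * psi N k v =
        (1 / 2) ^ N * ∑ k ∈ range (2 ^ N), tent (2 ^ N * u - k) * tent (2 ^ N * v - k) := by
      rw [mul_sum]
      refine sum_congr rfl fun k _ => ?_
      unfold psi
      have h2 : (√2)⁻¹ ^ N * (√2)⁻¹ ^ N = (1 / 2 : ℝ) ^ N := by
        rw [← mul_pow, ← mul_inv, Real.mul_self_sqrt (by norm_num)]; norm_num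
      rw [← h2]; ring
    rw [this]; ring

lemma sum_psi_mul_tendsto (u v : ℝ) :
    Tendsto (fun N => ∑ a ∈ range N, ∑ k ∈ range (2 ^ a), psi a k u * psi a k v) atTop
      (𝓝 (ker u v)) := by
  simp_rw [sum_psi_mul]
  simpa using (tendsto_const_nhds (x := ker u v)).sub (rem_tendsto u v)

/-- The compactifying change of time. -/
noncomputable def sq (s : ℝ) : ℝ := max s 0 / (1 + max s 0)

lemma sq_cont : Continuous sq := by
  unfold sq
  refine Continuous.div (by fun_prop) (by fun_prop) fun x => ?_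
  have := le_max_right x 0
  linarith

lemma ker_sq {s s' : ℝ} (hs : 0 ≤ s) (hs' : 0 ≤ s') :
    (1 + max s 0) * (1 + max s' 0) * ker (sq s) (sq s') = min s s' := by
  have key : ∀ {s s' : ℝ}, 0 ≤ s → s ≤ s' →
      (1 + s) * (1 + s') * (s / (1 + s) - s / (1 + s) * (s' / (1 + s'))) = s := by
    intro s s' h1 h2
    have : (1 + s) ≠ 0 := by linarith
    have : (1 + s') ≠ 0 := by linarith
    field_simp
    ring
  have hm : ∀ {s : ℝ}, 0 ≤ s → cl (s / (1 + s)) = s / (1 + s) := by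
    intro s h
    refine cl_of_mem (by positivity) ?_
    rw [div_le_one (by linarith)]; linarith
  have hmono : ∀ {s s' : ℝ}, 0 ≤ s → s ≤ s' → s / (1 + s) ≤ s' / (1 + s') := by
    intro s s' h1 h2
    rw [div_le_div_iff₀ (by linarith) (by linarith)]; nlinarith
  unfold ker sq
  rw [max_eq_left hs, max_eq_left hs']
  rcases le_total s s' with h | h
  · rw [min_eq_left (hmono hs h), min_eq_left h, hm hs, hm hs']
    exact key hs h
  · rw [min_eq_right (hmono hs' h), min_eq_right h, hm hs, hm hs']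
    have := key hs' h
    linarith

end Pool.Agent.MP_ba6658_pr

end

section

set_option autoImplicit false

open Finset Real

namespace Pool.Agent.MP_ba6658_pr

/-- Ornstein-Uhlenbeck correlation. -/
noncomputable def ee (a b : ℝ) : ℝ := exp (-|a - b| / 2)

lemma ee_self (a : ℝ) : ee a a = 1 := by simp [ee]

lemma ee_comm (a b : ℝ) : ee a b = ee b a := by unfold ee; rw [abs_sub_comm]

lemma ee_pos (a b : ℝ) : 0 < ee a b := exp_pos _

lemma ee_le_one (a b : ℝ) : ee a b ≤ 1 := by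
  unfold ee
  rw [exp_le_one_iff]
  have := abs_nonneg (a - b)
  linarith

lemma ee_mul {a b c : ℝ} (h1 : a ≤ b) (h2 : b ≤ c) : ee a c = ee a b * ee b c := by
  unfold ee
  rw [← exp_add, abs_of_nonpos (by linarith), abs_of_nonpos (by linarith),
    abs_of_nonpos (by linarith)]
  congr 1; ring

/-- Covariance of two two-point combinations. -/
noncomputable def cv (σ p p' x x' q q' z z' : ℝ) : ℝ :=
  p * q * ee x z + σ * p * q' * ee x z' + σ * p' * q * ee x' z + p' * q' * ee x' z'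

lemma cv_comm (σ p p' x x' q q' z z' : ℝ) :
    cv σ p p' x x' q q' z z' = cv σ q q' z z' p p' x x' := by
  unfold cv
  rw [ee_comm z x, ee_comm z' x, ee_comm z x', ee_comm z' x']
  ring

lemma cv_diag (σ p p' x x' : ℝ) :
    cv σ p p' x x' p p' x x' = p ^ 2 + 2 * (σ * ee x x') * p * p' + p' ^ 2 := by
  unfold cv
  rw [ee_self, ee_self, ee_comm x' x]
  ring

lemma shrink_aux {σ r β p p' : ℝ} (hσ : |σ| ≤ 1) (hr0 : 0 ≤ r) (hr1 : r ≤ 1) (hβ0 : 0 ≤ β)
    (hβ1 : β ≤ 1) :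
    (r * β * p) ^ 2 + 2 * σ * (r * β * p) * (β * p') + (β * p') ^ 2
      ≤ p ^ 2 + 2 * (σ * r) * p * p' + p' ^ 2 := by
  have h1 : σ ^ 2 ≤ 1 := by
    rw [← sq_abs]; exact pow_le_one₀ (abs_nonneg _) hσ
  have h2 : r ^ 2 ≤ 1 := pow_le_one₀ hr0 hr1
  have h3 : β ^ 2 ≤ 1 := pow_le_one₀ hβ0 hβ1
  have h4 : σ ^ 2 * r ^ 2 ≤ 1 := mul_le_one₀ h1 (sq_nonneg _) h2
  have h5 : 0 ≤ (1 - β ^ 2) * (p' + σ * r * p) ^ 2 := mul_nonneg (by linarith) (sq_nonneg _)
  have h6 : 0 ≤ (1 - β ^ 2) * (1 - σ ^ 2 * r ^ 2) * p ^ 2 :=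
    mul_nonneg (mul_nonneg (by linarith) (by linarith)) (sq_nonneg _)
  have h7 : 0 ≤ β ^ 2 * (1 - r ^ 2) * p ^ 2 :=
    mul_nonneg (mul_nonneg (sq_nonneg _) (by linarith)) (sq_nonneg _)
  nlinarith

lemma shrink_left {σ p p' x x' b : ℝ} (hσ : |σ| ≤ 1) (hx : x ≤ b) (hx' : x' ≤ b) :
    (ee x b * p) ^ 2 + 2 * σ * (ee x b * p) * (ee x' b * p') + (ee x' b * p') ^ 2
      ≤ cv σ p p' x x' p p' x x' := by
  rw [cv_diag]
  rcases le_total x x' with h | h
  · rw [ee_mul h hx']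
    exact shrink_aux hσ (ee_pos _ _).le (ee_le_one _ _) (ee_pos _ _).le (ee_le_one _ _)
  · rw [ee_mul h hx, ee_comm x x']
    have := shrink_aux (p := p') (p' := p) hσ (ee_pos x' x).le (ee_le_one _ _) (ee_pos x b).le
      (ee_le_one _ _)
    linarith

lemma shrink_right {σ p p' x x' b : ℝ} (hσ : |σ| ≤ 1) (hx : b ≤ x) (hx' : b ≤ x') :
    (ee b x * p) ^ 2 + 2 * σ * (ee b x * p) * (ee b x' * p') + (ee b x' * p') ^ 2
      ≤ cv σ p p' x x' p p' x x' := by
  rw [cv_diag]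
  rcases le_total x x' with h | h
  · rw [ee_mul hx h, mul_comm (ee b x) (ee x x')]
    have := shrink_aux (p := p') (p' := p) hσ (ee_pos x x').le (ee_le_one _ _) (ee_pos b x).le
      (ee_le_one _ _)
    linarith
  · rw [ee_mul hx' h, mul_comm (ee b x') (ee x' x), ee_comm x x']
    exact shrink_aux hσ (ee_pos _ _).le (ee_le_one _ _) (ee_pos _ _).le (ee_le_one _ _)

lemma psd_aux {σ : ℝ} (hσ : |σ| ≤ 1) (P P' Q Q' : ℝ) :
    |P * Q + σ * P * Q' + σ * P' * Q + P' * Q'|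
      ≤ ((P ^ 2 + 2 * σ * P * P' + P' ^ 2) + (Q ^ 2 + 2 * σ * Q * Q' + Q' ^ 2)) / 2 := by
  have h1 : σ ^ 2 ≤ 1 := by
    rw [← sq_abs]; exact pow_le_one₀ (abs_nonneg _) hσ
  have key : ∀ u u' : ℝ, 0 ≤ u ^ 2 + 2 * σ * u * u' + u' ^ 2 := by
    intro u u'
    have : 0 ≤ (1 - σ ^ 2) * u' ^ 2 := mul_nonneg (by linarith) (sq_nonneg _)
    nlinarith [sq_nonneg (u + σ * u')]
  rw [abs_le]
  constructor
  · have := key (P + Q) (P' + Q')
    nlinarith
  · have := key (P - Q) (P' - Q')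
    nlinarith

lemma cv_cross {σ p p' x x' q q' z z' a b : ℝ} (hσ : |σ| ≤ 1) (hx : x ≤ b) (hx' : x' ≤ b)
    (hba : b ≤ a) (hz : a ≤ z) (hz' : a ≤ z') :
    |cv σ p p' x x' q q' z z'|
      ≤ ee b a * ((cv σ p p' x x' p p' x x' + cv σ q q' z z' q q' z z') / 2) := by
  have e1 : cv σ p p' x x' q q' z z' = ee b a *
      ((ee x b * p) * (ee a z * q) + σ * (ee x b * p) * (ee a z' * q')
        + σ * (ee x' b * p') * (ee a z * q) + (ee x' b * p') * (ee a z' * q')) := by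
    unfold cv
    rw [ee_mul hx (hba.trans hz), ee_mul hx (hba.trans hz'), ee_mul hx' (hba.trans hz),
      ee_mul hx' (hba.trans hz'), ee_mul hba hz, ee_mul hba hz']
    ring
  rw [e1, abs_mul, abs_of_pos (ee_pos _ _)]
  refine mul_le_mul_of_nonneg_left ((psd_aux hσ _ _ _ _).trans ?_) (ee_pos _ _).le
  have h1 := shrink_left (p := p) (p' := p') hσ hx hx'
  have h2 := shrink_right (p := q) (p' := q') hσ hz hz'
  linarith

lemma sum_half_pow_le (k : ℕ) : ∑ l : Fin k, (1 / 2 : ℝ) ^ (l.1 + 1) ≤ 1 := by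
  rw [Fin.sum_univ_eq_sum_range (fun l => (1 / 2 : ℝ) ^ (l + 1))]
  have : ∑ l ∈ range k, (1 / 2 : ℝ) ^ (l + 1) = 1 - (1 / 2) ^ k := by
    induction k with
    | zero => simp
    | succ k ih => rw [sum_range_succ, ih]; ring
  rw [this]
  have : (0 : ℝ) ≤ (1 / 2) ^ k := by positivity
  linarith

lemma matrix_bound {k : ℕ} (M : Fin k → Fin k → ℝ) (hd : ∀ j, 0 ≤ M j j)
    (h : ∀ j l, j ≠ l → |M j l| ≤
      (1 / 2 : ℝ) ^ (j.1 + 1) * (1 / 2 : ℝ) ^ (l.1 + 1) * ((M j j + M l l) / 2)) :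
    |∑ j, ∑ l, M j l - ∑ j, M j j| ≤ ∑ j, (1 / 2 : ℝ) ^ (j.1 + 1) * M j j := by
  set g : Fin k → ℝ := fun j => (1 / 2 : ℝ) ^ (j.1 + 1) with hg
  have hg0 : ∀ j, 0 ≤ g j := fun j => by simp only [hg]; positivity
  have hs : ∑ l, g l ≤ 1 := sum_half_pow_le k
  have e1 : ∑ j, ∑ l, M j l - ∑ j, M j j = ∑ j, ∑ l, (if j = l then 0 else M j l) := by
    rw [← sum_sub_distrib]
    refine sum_congr rfl fun j _ => ?_
    have : ∑ l, M j l = ∑ l, ((if j = l then 0 else M j l) + (if j = l then M j l else 0)) := by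
      refine sum_congr rfl fun l _ => ?_
      split_ifs <;> simp
    rw [this, sum_add_distrib]
    simp
  rw [e1]
  have hT : 0 ≤ ∑ j, g j * M j j := sum_nonneg fun j _ => mul_nonneg (hg0 j) (hd j)
  calc |∑ j, ∑ l, (if j = l then 0 else M j l)|
      ≤ ∑ j, ∑ l, g j * g l * ((M j j + M l l) / 2) := by
        refine (abs_sum_le_sum_abs _ _).trans (sum_le_sum fun j _ => ?_)
        refine (abs_sum_le_sum_abs _ _).trans (sum_le_sum fun l _ => ?_)
        split_ifs with hjl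
        · rw [abs_zero]
          have := hd j
          have := hd l
          have := hg0 j
          have := hg0 l
          positivity
        · exact h j l hjl
    _ = (∑ j, g j * M j j) * (∑ l, g l) / 2 + (∑ l, g l) * (∑ j, g j * M j j) / 2 := by
        rw [sum_mul_sum, sum_mul_sum, sum_div, sum_div, ← sum_add_distrib]
        refine sum_congr rfl fun j _ => ?_
        rw [sum_div, sum_div, ← sum_add_distrib]
        refine sum_congr rfl fun l _ => by ring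
    _ ≤ ∑ j, g j * M j j := by nlinarith

/-- Left end of the `j`-th window in logarithmic time. -/
noncomputable def aa (j : ℕ) : ℝ := 4 ^ (j + 2)

lemma aa_pos (j : ℕ) : 0 < aa j := by unfold aa; positivity

lemma ee_window {j l : ℕ} (h : j < l) :
    2 * aa j ≤ aa l ∧ ee (2 * aa j) (aa l) ≤ (1 / 2 : ℝ) ^ (j + 1) * (1 / 2 : ℝ) ^ (l + 1) := by
  have h1 : 4 * aa j ≤ aa l := by
    unfold aa
    rw [← pow_succ']
    exact pow_le_pow_right₀ (by norm_num) (by omega)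
  have h0 := aa_pos j
  refine ⟨by linarith, ?_⟩
  unfold ee
  rw [abs_of_nonpos (by linarith)]
  have h2 : (4 : ℝ) ^ (l + 1) ≤ -(2 * aa j - aa l) / 2 := by
    have : aa l = 4 * 4 ^ (l + 1) := by unfold aa; ring
    linarith
  have h3 : (4 : ℝ) ^ (l + 1) ≤ exp (-(2 * aa j - aa l) / 2) := by
    have := add_one_le_exp (-(2 * aa j - aa l) / 2)
    linarith
  have h4 : (1 / 2 : ℝ) ^ (l + 1) ≤ (1 / 2 : ℝ) ^ (j + 1) :=
    pow_le_pow_of_le_one (by norm_num) (by norm_num) (by omega)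
  rw [neg_div, exp_neg]
  calc (exp (-(2 * aa j - aa l) / 2))⁻¹ ≤ ((4 : ℝ) ^ (l + 1))⁻¹ :=
        inv_anti₀ (by positivity) h3
    _ = (1 / 2 : ℝ) ^ (l + 1) * (1 / 2 : ℝ) ^ (l + 1) := by
        rw [← mul_pow, ← inv_pow]; norm_num
    _ ≤ _ := mul_le_mul_of_nonneg_right h4 (by positivity)

lemma cv_diag_nonneg {σ : ℝ} (hσ : |σ| ≤ 1) (p p' x x' : ℝ) : 0 ≤ cv σ p p' x x' p p' x x' := by
  rw [cv_diag]
  have h1 : (σ * ee x x') ^ 2 ≤ 1 := by
    rw [← sq_abs]
    refine pow_le_one₀ (abs_nonneg _) ?_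
    rw [abs_mul, abs_of_pos (ee_pos _ _)]
    exact mul_le_one₀ hσ (ee_pos _ _).le (ee_le_one _ _)
  have : 0 ≤ (1 - (σ * ee x x') ^ 2) * p' ^ 2 := mul_nonneg (by linarith) (sq_nonneg _)
  nlinarith [sq_nonneg (p + σ * ee x x' * p')]

/-- The quadratic form of window points is close to its block diagonal part. -/
lemma quad_bound {k : ℕ} {σ : ℝ} (hσ : |σ| ≤ 1) (p p' x x' : Fin k → ℝ)
    (hx : ∀ j : Fin k, aa j ≤ x j ∧ x j ≤ 2 * aa j)
    (hx' : ∀ j : Fin k, aa j ≤ x' j ∧ x' j ≤ 2 * aa j) :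
    |∑ j, ∑ l, cv σ (p j) (p' j) (x j) (x' j) (p l) (p' l) (x l) (x' l)
        - ∑ j, cv σ (p j) (p' j) (x j) (x' j) (p j) (p' j) (x j) (x' j)|
      ≤ ∑ j : Fin k, (1 / 2 : ℝ) ^ (j.1 + 1)
          * cv σ (p j) (p' j) (x j) (x' j) (p j) (p' j) (x j) (x' j) := by
  have key : ∀ j l : Fin k, j.1 < l.1 →
      |cv σ (p j) (p' j) (x j) (x' j) (p l) (p' l) (x l) (x' l)| ≤
        (1 / 2 : ℝ) ^ (j.1 + 1) * (1 / 2 : ℝ) ^ (l.1 + 1) *
          ((cv σ (p j) (p' j) (x j) (x' j) (p j) (p' j) (x j) (x' j)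
            + cv σ (p l) (p' l) (x l) (x' l) (p l) (p' l) (x l) (x' l)) / 2) := by
    intro j l hjl
    obtain ⟨h1, h2⟩ := ee_window hjl
    refine (cv_cross hσ (hx j).2 (hx' j).2 h1 (hx l).1 (hx' l).1).trans ?_
    refine mul_le_mul_of_nonneg_right h2 ?_
    have := cv_diag_nonneg hσ (p j) (p' j) (x j) (x' j)
    have := cv_diag_nonneg hσ (p l) (p' l) (x l) (x' l)
    positivity
  refine matrix_bound (fun j l => cv σ (p j) (p' j) (x j) (x' j) (p l) (p' l) (x l) (x' l))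
    (fun j => cv_diag_nonneg hσ _ _ _ _) (fun j l hjl => ?_)
  rcases lt_or_gt_of_ne (Fin.val_ne_of_ne hjl) with h | h
  · exact key j l h
  · have := key l j h
    rw [cv_comm] at this
    refine this.trans (le_of_eq ?_)
    ring

end Pool.Agent.MP_ba6658_pr

end

section

set_option autoImplicit false

open Finset Filter Topology MeasureTheory Real

namespace Pool.Agent.MP_ba6658_pr

/-- Uniform measure on the unit interval. -/
noncomputable def nu : Measure ℝ := volume.restrict (Set.Ioc 0 1)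

instance : IsProbabilityMeasure nu := ⟨by simp [nu]⟩

lemma integral_nu (f : ℝ → ℝ) : ∫ u, f u ∂nu = ∫ u in (0 : ℝ)..1, f u := by
  rw [intervalIntegral.integral_of_le zero_le_one]; rfl

lemma integral_nu_cl (f : ℝ → ℝ) : ∫ u, f (cl u) ∂nu = ∫ u in (0 : ℝ)..1, f u := by
  rw [integral_nu]
  refine intervalIntegral.integral_congr fun u hu => ?_
  rw [Set.uIcc_of_le zero_le_one] at hu
  simp only [cl_of_mem hu.1 hu.2]

lemma integral_abs_split (F : ℝ → ℝ) {u0 : ℝ} (h0 : 0 ≤ u0) (h1 : u0 ≤ 1)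
    (hi1 : IntervalIntegrable (fun u => F |u0 - u|) volume 0 u0)
    (hi2 : IntervalIntegrable (fun u => F |u0 - u|) volume u0 1) :
    ∫ u in (0 : ℝ)..1, F |u0 - u|
      = (∫ s in (0 : ℝ)..u0, F s) + ∫ s in (0 : ℝ)..(1 - u0), F s := by
  rw [← intervalIntegral.integral_add_adjacent_intervals hi1 hi2]
  congr 1
  · have : ∫ u in (0 : ℝ)..u0, F |u0 - u| = ∫ u in (0 : ℝ)..u0, F (u0 - u) := by
      refine intervalIntegral.integral_congr fun u hu => ?_
      rw [Set.uIcc_of_le h0] at hu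
      simp only [abs_of_nonneg (sub_nonneg.2 hu.2)]
    rw [this, intervalIntegral.integral_comp_sub_left]
    simp
  · have : ∫ u in u0..1, F |u0 - u| = ∫ u in u0..1, F (u - u0) := by
      refine intervalIntegral.integral_congr fun u hu => ?_
      rw [Set.uIcc_of_le h1] at hu
      simp only [abs_of_nonpos (sub_nonpos.2 hu.1), neg_sub]
    rw [this, intervalIntegral.integral_comp_sub_right]
    simp

lemma one_sub_pos {ρ t : ℝ} (hρ0 : 0 ≤ ρ) (_hρ1 : ρ < 1) (ht : 0 ≤ t) :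
    1 - ρ ≤ 1 - ρ * exp (-t) ∧ 1 - ρ * exp (-t) ≤ 1 := by
  have h1 : exp (-t) ≤ 1 := by rw [exp_le_one_iff]; linarith
  have h2 := exp_pos (-t)
  constructor <;> nlinarith

lemma half_window {ρ a c : ℝ} (hρ0 : 0 ≤ ρ) (hρ1 : ρ < 1) (ha : 0 < a) (hc : 0 ≤ c) :
    ∫ s in (0 : ℝ)..c, (1 - ρ * exp (-(a * s)))⁻¹ ≤ c + (-log (1 - ρ)) / a := by
  have hpos : ∀ s ∈ Set.uIcc 0 c, 0 < 1 - ρ * exp (-(a * s)) := by
    intro s hs
    rw [Set.uIcc_of_le hc] at hs
    have := (one_sub_pos hρ0 hρ1 (mul_nonneg ha.le hs.1)).1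
    linarith
  have hder : ∀ s ∈ Set.uIcc 0 c, HasDerivAt (fun s => s + log (1 - ρ * exp (-(a * s))) / a)
      ((1 - ρ * exp (-(a * s)))⁻¹) s := by
    intro s hs
    have h1 : HasDerivAt (fun s => 1 - ρ * exp (-(a * s))) (-(ρ * (exp (-(a * s)) * -(a * 1)))) s :=
      (((hasDerivAt_id s).const_mul a).neg.exp.const_mul ρ).const_sub 1
    have h2 := (hasDerivAt_id s).add ((h1.log (hpos s hs).ne').div_const a)
    have h3 : (1 - ρ * exp (-(a * s)))⁻¹
        = 1 + -(ρ * (exp (-(a * s)) * -(a * 1))) / (1 - ρ * exp (-(a * s))) / a := by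
      have := (hpos s hs).ne'
      field_simp
      ring
    rw [h3]
    exact h2
  have hcont : ContinuousOn (fun s => (1 - ρ * exp (-(a * s)))⁻¹) (Set.uIcc 0 c) :=
    ContinuousOn.inv₀ (by fun_prop) (fun s hs => (hpos s hs).ne')
  rw [intervalIntegral.integral_eq_sub_of_hasDerivAt hder hcont.intervalIntegrable]
  have h3 : log (1 - ρ * exp (-(a * c))) ≤ 0 :=
    log_nonpos (hpos c (by simp)).le (one_sub_pos hρ0 hρ1 (mul_nonneg ha.le hc)).2
  have h4 : log (1 - ρ * exp (-(a * c))) / a ≤ 0 := div_nonpos_of_nonpos_of_nonneg h3 ha.le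
  simp only [mul_zero, neg_zero, exp_zero, mul_one, zero_add]
  rw [neg_div]
  linarith

lemma ee_sq (x z : ℝ) : ee x z ^ 2 = exp (-|x - z|) := by
  unfold ee
  rw [pow_two, ← exp_add]
  congr 1; ring

/-- Position in the `j`-th window. -/
noncomputable def pos (j : ℕ) (u : ℝ) : ℝ := aa j * (1 + cl u)

lemma pos_mem (j : ℕ) (u : ℝ) : aa j ≤ pos j u ∧ pos j u ≤ 2 * aa j := by
  unfold pos
  have := aa_pos j
  have := cl_nonneg u
  have := cl_le_one u
  constructor <;> nlinarith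

lemma pos_cont (j : ℕ) : Continuous (pos j) := by
  unfold pos
  have := cl_cont
  fun_prop

lemma win_eq (σ : ℝ) (j : ℕ) (u0 u : ℝ) :
    (1 - (σ * ee (pos j u0) (pos j u)) ^ 2)⁻¹
      = (1 - σ ^ 2 * exp (-(aa j * |cl u0 - cl u|)))⁻¹ := by
  rw [mul_pow, ee_sq]
  unfold pos
  rw [← mul_sub, abs_mul, abs_of_pos (aa_pos j)]
  have : 1 + cl u0 - (1 + cl u) = cl u0 - cl u := by ring
  rw [this]

lemma win_cont {ρ a : ℝ} (hρ0 : 0 ≤ ρ) (hρ1 : ρ < 1) (ha : 0 < a) (w : ℝ) :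
    Continuous (fun u => (1 - ρ * exp (-(a * |w - u|)))⁻¹) := by
  refine Continuous.inv₀ (by fun_prop) fun u => ?_
  have := (one_sub_pos hρ0 hρ1 (mul_nonneg ha.le (abs_nonneg (w - u)))).1
  linarith

lemma window_integrable {σ : ℝ} (hσ : σ ^ 2 < 1) (j : ℕ) (u0 : ℝ) :
    Integrable (fun u => (1 - (σ * ee (pos j u0) (pos j u)) ^ 2)⁻¹) nu := by
  simp_rw [win_eq]
  have h := (win_cont (sq_nonneg σ) hσ (aa_pos j) (cl u0)).comp cl_cont
  exact (h.intervalIntegrable 0 1).1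

lemma window_bound {σ : ℝ} (hσ : σ ^ 2 < 1) (j : ℕ) (u0 : ℝ) :
    ∫ u, (1 - (σ * ee (pos j u0) (pos j u)) ^ 2)⁻¹ ∂nu
      ≤ exp ((1 / 2 : ℝ) ^ (j + 1) * (-log (1 - σ ^ 2) / 2)) := by
  simp_rw [win_eq]
  have hc := win_cont (sq_nonneg σ) hσ (aa_pos j) (cl u0)
  rw [integral_nu_cl (fun u => (1 - σ ^ 2 * exp (-(aa j * |cl u0 - u|)))⁻¹),
    integral_abs_split (fun s => (1 - σ ^ 2 * exp (-(aa j * s)))⁻¹) (cl_nonneg u0) (cl_le_one u0)
      (hc.intervalIntegrable _ _) (hc.intervalIntegrable _ _)]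
  have h1 := half_window (sq_nonneg σ) hσ (aa_pos j) (cl_nonneg u0)
  have h2 := half_window (c := 1 - cl u0) (sq_nonneg σ) hσ (aa_pos j)
    (by linarith [cl_le_one u0])
  have hL : 0 ≤ -log (1 - σ ^ 2) := by
    have := log_nonpos (x := 1 - σ ^ 2) (by linarith) (by linarith [sq_nonneg σ])
    linarith
  have h3 : 2 * (-log (1 - σ ^ 2) / aa j) ≤ (1 / 2 : ℝ) ^ (j + 1) * (-log (1 - σ ^ 2) / 2) := by
    have h4 : 2 / aa j ≤ (1 / 2 : ℝ) ^ (j + 1) / 2 := by
      unfold aa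
      rw [div_le_div_iff₀ (by positivity) (by norm_num)]
      have h5 : (1 / 2 : ℝ) ^ (j + 1) * 4 ^ (j + 2) = 4 * 2 ^ (j + 1) := by
        rw [pow_succ (4 : ℝ) (j + 1), ← mul_assoc, ← mul_pow]; norm_num; ring
      rw [h5]
      have : (1 : ℝ) ≤ 2 ^ (j + 1) := one_le_pow₀ (by norm_num)
      linarith
    calc 2 * (-log (1 - σ ^ 2) / aa j) = 2 / aa j * (-log (1 - σ ^ 2)) := by ring
      _ ≤ (1 / 2 : ℝ) ^ (j + 1) / 2 * (-log (1 - σ ^ 2)) := mul_le_mul_of_nonneg_right h4 hL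
      _ = _ := by ring
  have h6 := add_one_le_exp ((1 / 2 : ℝ) ^ (j + 1) * (-log (1 - σ ^ 2) / 2))
  linarith

lemma windows_bound {σ : ℝ} (hσ : σ ^ 2 < 1) {k : ℕ} (u0 : Fin k → ℝ) :
    ∫ u : Fin k → ℝ, ∏ j : Fin k, (1 - (σ * ee (pos j (u0 j)) (pos j (u j))) ^ 2)⁻¹
        ∂(Measure.pi fun _ => nu)
      ≤ (√(1 - σ ^ 2))⁻¹ := by
  rw [integral_fintype_prod_eq_prod
    (fun (j : Fin k) (t : ℝ) => (1 - (σ * ee (pos j (u0 j)) (pos j t)) ^ 2)⁻¹)]
  have hL : 0 ≤ -log (1 - σ ^ 2) := by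
    have := log_nonpos (x := 1 - σ ^ 2) (by linarith) (by linarith [sq_nonneg σ])
    linarith
  refine le_trans (prod_le_prod (fun j _ => integral_nonneg fun t => ?_)
    (fun j _ => window_bound hσ j (u0 j))) ?_
  · simp only [win_eq]
    have := (one_sub_pos (sq_nonneg σ) hσ
      (mul_nonneg (aa_pos j).le (abs_nonneg (cl (u0 j) - cl t)))).1
    exact inv_nonneg.2 (by linarith)
  rw [← exp_sum, ← sum_mul]
  have h1 := sum_half_pow_le k
  have h2 : (√(1 - σ ^ 2))⁻¹ = exp (-log (1 - σ ^ 2) / 2) := by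
    rw [neg_div, exp_neg, ← log_sqrt (by linarith), exp_log (sqrt_pos.2 (by linarith))]
  rw [h2, exp_le_exp]
  exact mul_le_of_le_one_left (by linarith) h1

lemma sing_le {y y' : ℝ} (hy : y ≠ y') (h1 : |y - y'| ≤ 1) :
    (√(1 - ee y y' ^ 2))⁻¹ ≤ 2 * |y - y'| ^ (-1 / 2 : ℝ) := by
  set w := |y - y'| with hw
  have hw0 : 0 < w := abs_pos.2 (sub_ne_zero.2 hy)
  rw [ee_sq, ← hw]
  have h2 : exp (-w) ≤ 1 - w / 4 := by
    have h3 := add_one_le_exp w
    rw [exp_neg, inv_le_comm₀ (exp_pos _) (by linarith)]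
    refine le_trans ?_ h3
    rw [inv_le_iff_one_le_mul₀ (by linarith)]
    nlinarith
  have h4 : √(w / 4) ≤ √(1 - exp (-w)) := sqrt_le_sqrt (by linarith)
  have h5 : √(w / 4) = √w / 2 := by
    rw [sqrt_div hw0.le, show (4 : ℝ) = 2 ^ 2 by norm_num, sqrt_sq (by norm_num)]
  have h6 : w ^ (-1 / 2 : ℝ) = (√w)⁻¹ := by
    rw [sqrt_eq_rpow, ← rpow_neg hw0.le]; norm_num
  rw [h6]
  have h7 : 0 < √w := sqrt_pos.2 hw0
  calc (√(1 - exp (-w)))⁻¹ ≤ (√w / 2)⁻¹ := inv_anti₀ (by positivity) (h5 ▸ h4)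
    _ = 2 * (√w)⁻¹ := by field_simp

lemma sing_int_left {y : ℝ} (h0 : 0 ≤ y) :
    IntervalIntegrable (fun u => |y - u| ^ (-1 / 2 : ℝ)) volume 0 y := by
  have h := (intervalIntegral.intervalIntegrable_rpow' (r := -1 / 2) (a := y) (b := 0)
    (by norm_num)).comp_sub_left y
  simp only [sub_self, sub_zero] at h
  refine h.congr fun u hu => ?_
  rw [Set.uIoc_of_le h0] at hu
  simp only [abs_of_nonneg (sub_nonneg.2 hu.2)]

lemma sing_int_right {y : ℝ} (h1 : y ≤ 1) :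
    IntervalIntegrable (fun u => |y - u| ^ (-1 / 2 : ℝ)) volume y 1 := by
  have h := (intervalIntegral.intervalIntegrable_rpow' (r := -1 / 2) (a := 0) (b := 1 - y)
    (by norm_num)).comp_sub_right y
  simp only [zero_add, sub_add_cancel] at h
  refine h.congr fun u hu => ?_
  rw [Set.uIoc_of_le h1] at hu
  simp only [abs_of_nonpos (sub_nonpos.2 hu.1.le), neg_sub]

lemma sing_integrable {y : ℝ} (h0 : 0 ≤ y) (h1 : y ≤ 1) :
    Integrable (fun u => |y - u| ^ (-1 / 2 : ℝ)) nu :=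
  ((sing_int_left h0).trans (sing_int_right h1)).1

lemma sing_bound {y : ℝ} (h0 : 0 ≤ y) (h1 : y ≤ 1) :
    ∫ u, |y - u| ^ (-1 / 2 : ℝ) ∂nu ≤ 4 := by
  rw [integral_nu, integral_abs_split (fun s => s ^ (-1 / 2 : ℝ)) h0 h1 (sing_int_left h0)
    (sing_int_right h1)]
  have key : ∀ c : ℝ, 0 ≤ c → c ≤ 1 → ∫ s in (0 : ℝ)..c, s ^ (-1 / 2 : ℝ) ≤ 2 := by
    intro c hc0 hc1
    rw [integral_rpow (Or.inl (by norm_num))]
    have h2 : c ^ (-1 / 2 + 1 : ℝ) ≤ 1 := rpow_le_one hc0 hc1 (by norm_num)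
    have h3 : (0 : ℝ) ^ (-1 / 2 + 1 : ℝ) = 0 := zero_rpow (by norm_num)
    rw [h3, div_le_iff₀ (by norm_num)]
    linarith
  have := key y h0 h1
  have := key (1 - y) (by linarith) (by linarith)
  linarith

end Pool.Agent.MP_ba6658_pr

end
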