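import Mathlib
import Pool.Agent.Mg.S19600.G5c9d8f

section

set_option autoImplicit false

open Finset Filter Topology MeasureTheory ProbabilityTheory Complex
open scoped NNReal ENNReal

namespace Pool.Agent.MP_ba6658_pr

/-- Product of standard Gaussians. -/
noncomputable def gaussPi (ι : Type) : Measure (ι → ℝ) :=
  Measure.infinitePi (fun _ : ι => gaussianReal 0 1)

instance (ι : Type) : IsProbabilityMeasure (gaussPi ι) := by
  unfold gaussPi; infer_instance

lemma gaussPi_map_eval {ι : Type} (j : ι) :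
    (gaussPi ι).map (fun ω => ω j) = gaussianReal 0 1 :=
  Measure.infinitePi_map_eval (fun _ : ι => gaussianReal 0 1) j

lemma charFun_finite_comb {ι : Type} (J : Finset ι) (α : ι → ℝ) (θ : ℝ) :
    charFun ((gaussPi ι).map (fun ω => ∑ j ∈ J, α j * ω j)) θ
      = cexp (-((∑ j ∈ J, α j ^ 2 : ℝ) : ℂ) * θ ^ 2 / 2) := by
  have hind : iIndepFun (fun (j : ι) (ω : ι → ℝ) => α j * ω j) (gaussPi ι) :=
    iIndepFun_infinitePi (P := fun _ : ι => gaussianReal 0 1) (X := fun j x => α j * x)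
      (fun j => by fun_prop)
  have h := (hind.restrict J).charFun_map_fun_finsetSum_eq_prod
    (X := fun (j : ι) (ω : ι → ℝ) => α j * ω j) (fun j _ => Measurable.aemeasurable (by fun_prop))
  rw [h, Finset.prod_apply]
  have h2 : ∀ j, charFun ((gaussPi ι).map (fun ω => α j * ω j)) θ
      = cexp (-((α j ^ 2 : ℝ) : ℂ) * θ ^ 2 / 2) := by
    intro j
    have : (gaussPi ι).map (fun ω => α j * ω j)
        = ((gaussPi ι).map (fun ω => ω j)).map (fun x => α j * x) := by
      rw [Measure.map_map (by fun_prop) (by fun_prop)]; rfl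
    rw [this, gaussPi_map_eval, charFun_map_mul, charFun_gaussianReal]
    congr 1
    push_cast
    ring
  simp_rw [h2]
  rw [← Complex.exp_sum]
  congr 1
  push_cast
  rw [neg_mul, sum_mul, neg_div, sum_div, ← sum_neg_distrib]
  refine sum_congr rfl fun j _ => by ring

lemma law_of_series {ι : Type} (J : ℕ → Finset ι) (α : ι → ℝ) (Y : (ι → ℝ) → ℝ) (V : ℝ)
    (hY : Measurable Y)
    (hlim : ∀ᵐ ω ∂(gaussPi ι), Tendsto (fun N => ∑ j ∈ J N, α j * ω j) atTop (𝓝 (Y ω)))
    (hV : Tendsto (fun N => ∑ j ∈ J N, α j ^ 2) atTop (𝓝 V)) :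
    (gaussPi ι).map Y = gaussianReal 0 V.toNNReal := by
  have hV0 : 0 ≤ V := ge_of_tendsto' hV (fun N => sum_nonneg fun j _ => sq_nonneg _)
  have : IsProbabilityMeasure ((gaussPi ι).map Y) :=
    Measure.isProbabilityMeasure_map hY.aemeasurable
  apply Measure.ext_of_charFun
  funext θ
  have h1 : Tendsto (fun N => charFun ((gaussPi ι).map (fun ω => ∑ j ∈ J N, α j * ω j)) θ)
      atTop (𝓝 (charFun ((gaussPi ι).map Y) θ)) := by
    have e : ∀ (Z : (ι → ℝ) → ℝ), Measurable Z →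
        charFun ((gaussPi ι).map Z) θ = ∫ ω, cexp (θ * Z ω * I) ∂(gaussPi ι) := by
      intro Z hZ
      rw [charFun_apply_real, integral_map hZ.aemeasurable (by fun_prop)]
    rw [e Y hY]
    have e2 : (fun N => charFun ((gaussPi ι).map (fun ω => ∑ j ∈ J N, α j * ω j)) θ)
        = fun N => ∫ ω, cexp (θ * (∑ j ∈ J N, α j * ω j : ℝ) * I) ∂(gaussPi ι) := by
      funext N
      exact e _ (by fun_prop)
    rw [e2]
    refine tendsto_integral_of_dominated_convergence (fun _ => 1) (fun N => ?_)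
      (integrable_const _) (fun N => ?_) ?_
    · exact Measurable.aestronglyMeasurable (by fun_prop)
    · refine Eventually.of_forall fun ω => ?_
      rw [← Complex.ofReal_mul, Complex.norm_exp_ofReal_mul_I]
    · filter_upwards [hlim] with ω hω
      refine (Complex.continuous_exp.tendsto _).comp ?_
      refine Tendsto.mul_const _ (Tendsto.const_mul _ ?_)
      exact (Complex.continuous_ofReal.tendsto _).comp hω
  have h2 : Tendsto (fun N => charFun ((gaussPi ι).map (fun ω => ∑ j ∈ J N, α j * ω j)) θ)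
      atTop (𝓝 (cexp (-(V : ℂ) * θ ^ 2 / 2))) := by
    simp_rw [charFun_finite_comb]
    refine (Complex.continuous_exp.tendsto _).comp ?_
    refine Tendsto.div_const (Tendsto.mul_const _ (Tendsto.neg ?_)) _
    exact (Complex.continuous_ofReal.tendsto _).comp hV
  rw [tendsto_nhds_unique h1 h2, charFun_gaussianReal]
  congr 1
  rw [Real.coe_toNNReal V hV0]
  push_cast
  ring

end Pool.Agent.MP_ba6658_pr

end

section

set_option autoImplicit false

open Finset Filter Topology MeasureTheory ProbabilityTheory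
open scoped NNReal ENNReal

namespace Pool.Agent.MP_ba6658_pr

/-- Dyadic index: level and position. -/
abbrev Kx : Type := Σ a : ℕ, Fin (2 ^ a)

/-- Index set of the Gaussian coefficients. -/
abbrev Idx (d : ℕ) : Type := Fin d × Kx × Kx

/-- Sample points with slowly growing coefficients. -/
def Good {d : ℕ} (ω : Idx d → ℝ) : Prop :=
  ∃ C : ℕ, ∀ j : Idx d, |ω j| ≤ C * ((5 / 4) ^ j.2.1.1 * (5 / 4) ^ j.2.2.1)

lemma measurableSet_good (d : ℕ) : MeasurableSet {ω : Idx d → ℝ | Good ω} := by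
  have : {ω : Idx d → ℝ | Good ω} =
      ⋃ C : ℕ, ⋂ j : Idx d,
        {ω : Idx d → ℝ | |ω j| ≤ (C : ℝ) * ((5 / 4) ^ j.2.1.1 * (5 / 4) ^ j.2.2.1)} := by
    ext ω; simp [Good]
  rw [this]
  refine MeasurableSet.iUnion fun C => MeasurableSet.iInter fun j => ?_
  exact measurableSet_le (by fun_prop) (by fun_prop)

lemma tsum_Kx_lt_top :
    ∑' κ : Kx, ENNReal.ofReal (((4 / 5 : ℝ) ^ κ.1) ^ 4) ≠ ∞ := by
  rw [ENNReal.tsum_sigma']
  have h : ∀ a : ℕ, ∑' _k : Fin (2 ^ a), ENNReal.ofReal (((4 / 5 : ℝ) ^ a) ^ 4)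
      = ENNReal.ofReal ((512 / 625 : ℝ) ^ a) := by
    intro a
    rw [tsum_fintype, sum_const, card_univ, Fintype.card_fin, nsmul_eq_mul,
      ← ENNReal.ofReal_natCast, ← ENNReal.ofReal_mul (by positivity)]
    congr 1
    push_cast
    rw [← pow_mul, mul_comm a 4, pow_mul, ← mul_pow]
    norm_num
  simp_rw [h]
  rw [← ENNReal.ofReal_tsum_of_nonneg (fun a => by positivity)
    (summable_geometric_of_lt_one (by norm_num) (by norm_num))]
  exact ENNReal.ofReal_ne_top

lemma fourth_moment_lt_top : ∫⁻ x, ENNReal.ofReal (x ^ 4) ∂(gaussianReal 0 1) ≠ ∞ := by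
  have h : Integrable (fun x : ℝ => x ^ 4) (gaussianReal 0 1) := by
    have h1 : MemLp id ((4 : ℕ) : ℝ≥0∞) (gaussianReal 0 1) :=
      memLp_id_gaussianReal' _ (by simp)
    have h2 := h1.integrable_norm_pow (by norm_num)
    refine h2.congr (Eventually.of_forall fun x => ?_)
    simp only [id, Real.norm_eq_abs]
    exact Even.pow_abs (by decide) x
  exact h.lintegral_lt_top.ne

lemma ae_good (d : ℕ) : ∀ᵐ ω ∂(gaussPi (Idx d)), Good ω := by
  set w : Idx d → ℝ := fun j => (4 / 5) ^ j.2.1.1 * (4 / 5) ^ j.2.2.1 with hw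
  set S : (Idx d → ℝ) → ℝ≥0∞ := fun ω => ∑' j : Idx d, ENNReal.ofReal ((w j * ω j) ^ 4) with hS
  have hSm : Measurable S := Measurable.tsum fun j => by fun_prop
  have hint : ∫⁻ ω, S ω ∂(gaussPi (Idx d)) ≠ ∞ := by
    rw [hS, lintegral_tsum (fun j => Measurable.aemeasurable (by fun_prop))]
    have h1 : ∀ j : Idx d, ∫⁻ ω, ENNReal.ofReal ((w j * ω j) ^ 4) ∂(gaussPi (Idx d))
        = (ENNReal.ofReal (((4 / 5 : ℝ) ^ j.2.1.1) ^ 4)
            * ENNReal.ofReal (((4 / 5 : ℝ) ^ j.2.2.1) ^ 4))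
          * ∫⁻ x, ENNReal.ofReal (x ^ 4) ∂(gaussianReal 0 1) := by
      intro j
      rw [← gaussPi_map_eval j, lintegral_map (by fun_prop) (by fun_prop),
        ← lintegral_const_mul _ (by fun_prop)]
      refine lintegral_congr fun ω => ?_
      rw [← ENNReal.ofReal_mul (by positivity), ← ENNReal.ofReal_mul (by positivity)]
      congr 1
      simp only [hw]
      ring
    simp_rw [h1]
    rw [ENNReal.tsum_mul_right]
    refine ENNReal.mul_ne_top ?_ fourth_moment_lt_top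
    rw [ENNReal.tsum_prod', tsum_fintype]
    refine ENNReal.sum_ne_top.2 fun i _ => ?_
    rw [ENNReal.tsum_prod']
    simp only
    simp_rw [ENNReal.tsum_mul_left]
    rw [ENNReal.tsum_mul_right]
    exact ENNReal.mul_ne_top tsum_Kx_lt_top tsum_Kx_lt_top
  filter_upwards [ae_lt_top hSm hint] with ω hω
  obtain ⟨C, hC⟩ := exists_nat_ge ((S ω).toReal + 1)
  refine ⟨C, fun j => ?_⟩
  have h1 : ENNReal.ofReal ((w j * ω j) ^ 4) ≤ S ω := ENNReal.le_tsum (f := fun j : Idx d => ENNReal.ofReal ((w j * ω j) ^ 4)) j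
  have h2 : (w j * ω j) ^ 4 ≤ (S ω).toReal := by
    rwa [ENNReal.ofReal_le_iff_le_toReal hω.ne] at h1
  have h3 : |w j * ω j| ≤ C := by
    have h4 : |w j * ω j| ^ 4 = (w j * ω j) ^ 4 := Even.pow_abs (by decide) _
    have h5 := abs_nonneg (w j * ω j)
    have h6 : (0 : ℝ) ≤ (S ω).toReal := ENNReal.toReal_nonneg
    rcases le_total (|w j * ω j|) 1 with h | h
    · linarith
    · have : |w j * ω j| ≤ |w j * ω j| ^ 4 := le_self_pow₀ h (by norm_num)
      linarith
  have hw0 : 0 < w j := by simp only [hw]; positivity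
  rw [abs_mul, abs_of_pos hw0] at h3
  have h7 : w j * ((5 / 4) ^ j.2.1.1 * (5 / 4) ^ j.2.2.1) = 1 := by
    simp only [hw]
    rw [mul_mul_mul_comm, ← mul_pow, ← mul_pow]
    norm_num
  have h8 : (0 : ℝ) < (5 / 4) ^ j.2.1.1 * (5 / 4) ^ j.2.2.1 := by positivity
  calc |ω j| = (w j * |ω j|) * ((5 / 4) ^ j.2.1.1 * (5 / 4) ^ j.2.2.1) := by
        rw [mul_right_comm, h7, one_mul]
    _ ≤ _ := mul_le_mul_of_nonneg_right h3 h8.le

open Classical in
/-- Replace bad sample points by zero. -/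
noncomputable def trunc {d : ℕ} (ω : Idx d → ℝ) : Idx d → ℝ := if Good ω then ω else 0

lemma good_trunc {d : ℕ} (ω : Idx d → ℝ) : Good (trunc ω) := by
  unfold trunc
  split_ifs with h
  · exact h
  · exact ⟨0, fun j => by simp⟩

lemma measurable_trunc (d : ℕ) : Measurable (trunc : (Idx d → ℝ) → (Idx d → ℝ)) := by
  classical
  unfold trunc
  exact Measurable.ite (measurableSet_good d) measurable_id measurable_const

/-- One block of the double Schauder series. -/
noncomputable def lev {d : ℕ} (ω : Idx d → ℝ) (i : Fin d) (p : ℕ × ℕ) (z : ℝ × ℝ) : ℝ :=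
  ∑ k : Fin (2 ^ p.1), ∑ l : Fin (2 ^ p.2),
    ω (i, ⟨p.1, k⟩, ⟨p.2, l⟩) * (psi p.1 k z.1 * psi p.2 l z.2)

lemma lev_cont {d : ℕ} (ω : Idx d → ℝ) (i : Fin d) (p : ℕ × ℕ) : Continuous (lev ω i p) := by
  unfold lev
  refine continuous_finsetSum _ fun k _ => continuous_finsetSum _ fun l _ => ?_
  exact continuous_const.mul
    (((psi_cont _ _).comp continuous_fst).mul ((psi_cont _ _).comp continuous_snd))

lemma sum_psi_fin_le (a : ℕ) (u : ℝ) : ∑ k : Fin (2 ^ a), psi a k u ≤ (√2)⁻¹ ^ a := by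
  rw [Fin.sum_univ_eq_sum_range (fun k => psi a k u)]
  exact sum_psi_le a u

lemma lev_bound {d : ℕ} (ω : Idx d → ℝ) (C : ℕ)
    (hC : ∀ j : Idx d, |ω j| ≤ C * ((5 / 4) ^ j.2.1.1 * (5 / 4) ^ j.2.2.1))
    (i : Fin d) (p : ℕ × ℕ) (z : ℝ × ℝ) :
    ‖lev ω i p z‖ ≤ C * ((5 / 4 * (√2)⁻¹) ^ p.1 * (5 / 4 * (√2)⁻¹) ^ p.2) := by
  unfold lev
  set M : ℝ := C * ((5 / 4) ^ p.1 * (5 / 4) ^ p.2) with hM
  have hM0 : 0 ≤ M := by positivity
  calc ‖∑ k : Fin (2 ^ p.1), ∑ l : Fin (2 ^ p.2),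
        ω (i, ⟨p.1, k⟩, ⟨p.2, l⟩) * (psi p.1 k z.1 * psi p.2 l z.2)‖
      ≤ ∑ k : Fin (2 ^ p.1), ∑ l : Fin (2 ^ p.2), M * (psi p.1 k z.1 * psi p.2 l z.2) := by
        refine (norm_sum_le _ _).trans (sum_le_sum fun k _ => ?_)
        refine (norm_sum_le _ _).trans (sum_le_sum fun l _ => ?_)
        have h0 : 0 ≤ psi p.1 k z.1 * psi p.2 l z.2 :=
          mul_nonneg (psi_nonneg _ _ _) (psi_nonneg _ _ _)
        rw [Real.norm_eq_abs, abs_mul, abs_of_nonneg h0]
        exact mul_le_mul_of_nonneg_right (hC (i, ⟨p.1, k⟩, ⟨p.2, l⟩)) h0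
    _ = M * ((∑ k : Fin (2 ^ p.1), psi p.1 k z.1) * (∑ l : Fin (2 ^ p.2), psi p.2 l z.2)) := by
        rw [sum_mul_sum, mul_sum]
        refine sum_congr rfl fun k _ => ?_
        rw [mul_sum]
    _ ≤ M * ((√2)⁻¹ ^ p.1 * (√2)⁻¹ ^ p.2) := by
        refine mul_le_mul_of_nonneg_left ?_ hM0
        exact mul_le_mul (sum_psi_fin_le _ _) (sum_psi_fin_le _ _)
          (sum_nonneg fun l _ => psi_nonneg _ _ _) (by positivity)
    _ = _ := by rw [hM, mul_pow, mul_pow]; ring

lemma summable_bound (C : ℕ) :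
    Summable (fun p : ℕ × ℕ =>
      (C : ℝ) * ((5 / 4 * (√2)⁻¹) ^ p.1 * (5 / 4 * (√2)⁻¹) ^ p.2)) := by
  have h0 : (0 : ℝ) ≤ 5 / 4 * (√2)⁻¹ := by positivity
  have h1 : (5 / 4 * (√2)⁻¹ : ℝ) < 1 := by
    have : (5 / 4 : ℝ) < √2 := Real.lt_sqrt_of_sq_lt (by norm_num)
    rw [← div_eq_mul_inv, div_lt_one (by positivity)]
    exact this
  have h2 := summable_geometric_of_lt_one h0 h1
  exact (h2.mul_of_nonneg h2 (fun n => pow_nonneg h0 n) (fun n => pow_nonneg h0 n)).mul_left _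

/-- The tied-down sheet. -/
noncomputable def bridge {d : ℕ} (ω : Idx d → ℝ) (i : Fin d) (z : ℝ × ℝ) : ℝ :=
  ∑' p : ℕ × ℕ, lev ω i p z

lemma bridge_cont {d : ℕ} (ω : Idx d → ℝ) (h : Good ω) (i : Fin d) :
    Continuous (bridge ω i) := by
  obtain ⟨C, hC⟩ := h
  exact continuous_tsum (lev_cont ω i) (summable_bound C) (lev_bound ω C hC i)

lemma tendsto_box : Tendsto (fun N : ℕ => range N ×ˢ range N) atTop atTop := by
  refine tendsto_atTop_finset_of_monotone (fun a b h => ?_) (fun p => ?_)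
  · exact product_subset_product (range_mono h) (range_mono h)
  · exact ⟨max p.1 p.2 + 1, by simp⟩

lemma bridge_tendsto {d : ℕ} (ω : Idx d → ℝ) (h : Good ω) (i : Fin d) (z : ℝ × ℝ) :
    Tendsto (fun N : ℕ => ∑ p ∈ range N ×ˢ range N, lev ω i p z) atTop (𝓝 (bridge ω i z)) := by
  obtain ⟨C, hC⟩ := h
  have hs : Summable (fun p => lev ω i p z) :=
    Summable.of_norm_bounded (summable_bound C) (fun p => lev_bound ω C hC i p z)
  exact (show Tendsto _ atTop _ from hs.hasSum).comp tendsto_box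

lemma measurable_bridge {d : ℕ} (i : Fin d) (z : ℝ × ℝ) :
    Measurable (fun ω : Idx d → ℝ => bridge ω i z) := by
  unfold bridge lev
  exact Measurable.tsum fun p => by fun_prop

/-- The Brownian sheet. -/
noncomputable def sheet {d : ℕ} (i : Fin d) (s t : ℝ) (ω : Idx d → ℝ) : ℝ :=
  (1 + max s 0) * (1 + max t 0) * bridge (trunc ω) i (sq s, sq t)

lemma sheet_cont {d : ℕ} (i : Fin d) (ω : Idx d → ℝ) :
    Continuous (fun p : ℝ × ℝ => sheet i p.1 p.2 ω) := by
  unfold sheet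
  refine Continuous.mul (by fun_prop) ?_
  exact (bridge_cont _ (good_trunc ω) i).comp
    ((sq_cont.comp continuous_fst).prodMk (sq_cont.comp continuous_snd))

lemma measurable_sheet {d : ℕ} (i : Fin d) (s t : ℝ) :
    Measurable (sheet i s t : (Idx d → ℝ) → ℝ) := by
  unfold sheet
  exact measurable_const.mul ((measurable_bridge i _).comp (measurable_trunc d))

/-- Dyadic indices of level below `N`. -/
def KN (N : ℕ) : Finset Kx := (range N).sigma (fun a => (univ : Finset (Fin (2 ^ a))))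

/-- Schauder function after the change of time. -/
noncomputable def gg (κ : Kx) (s : ℝ) : ℝ := (1 + max s 0) * psi κ.1 κ.2 (sq s)

lemma sum_gg_tendsto {s s' : ℝ} (hs : 0 ≤ s) (hs' : 0 ≤ s') :
    Tendsto (fun N => ∑ κ ∈ KN N, gg κ s * gg κ s') atTop (𝓝 (min s s')) := by
  rw [← ker_sq hs hs']
  have := (sum_psi_mul_tendsto (sq s) (sq s')).const_mul ((1 + max s 0) * (1 + max s' 0))
  refine this.congr fun N => ?_
  unfold KN gg
  rw [sum_sigma, mul_sum]
  refine sum_congr rfl fun a _ => ?_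
  rw [mul_sum, ← Fin.sum_univ_eq_sum_range
    (fun k => (1 + max s 0) * (1 + max s' 0) * (psi a k (sq s) * psi a k (sq s')))]
  refine sum_congr rfl fun k _ => by ring

lemma partial_sum_eq {d : ℕ} (ω : Idx d → ℝ) (i : Fin d) (s t : ℝ) (N : ℕ) :
    (1 + max s 0) * (1 + max t 0) * ∑ p ∈ range N ×ˢ range N, lev ω i p (sq s, sq t)
      = ∑ κ ∈ KN N, ∑ κ' ∈ KN N, ω (i, κ, κ') * (gg κ s * gg κ' t) := by
  unfold KN lev gg
  rw [sum_product, sum_sigma, mul_sum]
  refine sum_congr rfl fun a _ => ?_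
  simp_rw [sum_sigma]
  rw [sum_comm, mul_sum]
  refine sum_congr rfl fun b _ => ?_
  rw [mul_sum]
  refine sum_congr rfl fun k _ => ?_
  rw [mul_sum]
  refine sum_congr rfl fun l _ => by ring

theorem sheet_law {d : ℕ} (n : ℕ) (idx : Fin n → Fin d) (s t c : Fin n → ℝ)
    (hs : ∀ k, 0 ≤ s k) (ht : ∀ k, 0 ≤ t k) :
    (gaussPi (Idx d)).map (fun ω => ∑ k, c k * sheet (idx k) (s k) (t k) ω) =
      gaussianReal 0
        (∑ k, ∑ l, (if idx k = idx l then
          c k * c l * (min (s k) (s l) * min (t k) (t l)) else 0)).toNNReal := by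
  set α : Idx d → ℝ := fun j =>
    ∑ m, if idx m = j.1 then c m * (gg j.2.1 (s m) * gg j.2.2 (t m)) else 0 with hα
  refine law_of_series (fun N => univ ×ˢ (KN N ×ˢ KN N)) α _ _ ?_ ?_ ?_
  · exact Finset.measurable_sum _ fun k _ => measurable_const.mul (measurable_sheet _ _ _)
  · filter_upwards [ae_good d] with ω hω
    have htr : trunc ω = ω := by unfold trunc; rw [if_pos hω]
    have h1 : ∀ N, ∑ j ∈ univ ×ˢ (KN N ×ˢ KN N), α j * ω j
        = ∑ m, c m * ((1 + max (s m) 0) * (1 + max (t m) 0) *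
            ∑ p ∈ range N ×ˢ range N, lev ω (idx m) p (sq (s m), sq (t m))) := by
      intro N
      simp_rw [partial_sum_eq, hα, sum_mul]
      rw [sum_comm]
      refine sum_congr rfl fun m _ => ?_
      rw [sum_product, sum_eq_single (idx m)]
      · rw [sum_product, mul_sum]
        refine sum_congr rfl fun κ _ => ?_
        rw [mul_sum]
        refine sum_congr rfl fun κ' _ => ?_
        simp only [if_true]
        ring
      · intro i _ hi
        refine sum_eq_zero fun q _ => ?_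
        simp [hi.symm]
      · simp
    simp_rw [h1]
    refine tendsto_finsetSum _ fun m _ => Tendsto.const_mul _ ?_
    unfold sheet
    rw [htr]
    exact (bridge_tendsto ω hω _ _).const_mul _
  · have h1 : ∀ N, ∑ j ∈ univ ×ˢ (KN N ×ˢ KN N), α j ^ 2
        = ∑ k, ∑ l, (if idx k = idx l then
          c k * c l * ((∑ κ ∈ KN N, gg κ (s k) * gg κ (s l))
            * (∑ κ ∈ KN N, gg κ (t k) * gg κ (t l))) else 0) := by
      intro N
      simp_rw [hα, pow_two, sum_mul_sum]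
      rw [sum_comm]
      refine sum_congr rfl fun k _ => ?_
      rw [sum_comm]
      refine sum_congr rfl fun l _ => ?_
      rw [sum_product, sum_eq_single (idx k)]
      · by_cases h : idx k = idx l
        · rw [if_pos h, sum_product, mul_sum]
          refine sum_congr rfl fun κ _ => ?_
          rw [mul_sum]
          refine sum_congr rfl fun κ' _ => ?_
          simp only [if_true, h]
          ring
        · rw [if_neg h]
          refine sum_eq_zero fun q _ => ?_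
          simp [Ne.symm h]
      · intro i _ hi
        refine sum_eq_zero fun q _ => ?_
        simp [hi.symm]
      · simp
    simp_rw [h1]
    refine tendsto_finsetSum _ fun k _ => tendsto_finsetSum _ fun l _ => ?_
    split_ifs with h
    · exact ((sum_gg_tendsto (hs k) (hs l)).mul (sum_gg_tendsto (ht k) (ht l))).const_mul _
    · exact tendsto_const_nhds

end Pool.Agent.MP_ba6658_pr

end

section

set_option autoImplicit false

open Finset Filter Topology MeasureTheory ProbabilityTheory Real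
open scoped NNReal ENNReal

namespace Pool.Agent.MP_ba6658_pr

/-- The sample space of the planar sheet. -/
abbrev Om : Type := Idx 2 → ℝ

/-- The stationary Ornstein-Uhlenbeck sheet attached to the Brownian sheet. -/
noncomputable def ou (i : Fin 2) (y x : ℝ) (ω : Om) : ℝ :=
  exp (-y / 2) * exp (-x / 2) * sheet i (exp y) (exp x) ω

lemma measurable_ou (i : Fin 2) (y x : ℝ) : Measurable (ou i y x) :=
  measurable_const.mul (measurable_sheet _ _ _)

lemma ou_cont (i : Fin 2) (ω : Om) : Continuous (fun p : ℝ × ℝ => ou i p.1 p.2 ω) := by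
  unfold ou
  refine Continuous.mul (by fun_prop) ?_
  exact (sheet_cont i ω).comp (f := fun p : ℝ × ℝ => (exp p.1, exp p.2)) (by fun_prop)

lemma ou_joint (i : Fin 2) : Measurable (fun q : (ℝ × ℝ) × Om => ou i q.1.1 q.1.2 q.2) :=
  measurable_uncurry_of_continuous_of_measurable (u := fun (p : ℝ × ℝ) ω => ou i p.1 p.2 ω)
    (ou_cont i) (fun p => measurable_ou i p.1 p.2)

lemma exp_min (a b : ℝ) : exp (-a / 2) * exp (-b / 2) * min (exp a) (exp b) = ee a b := by
  unfold ee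
  rcases le_total a b with h | h
  · rw [min_eq_left (exp_le_exp.2 h), abs_of_nonpos (by linarith), ← exp_add, ← exp_add]
    congr 1; ring
  · rw [min_eq_right (exp_le_exp.2 h), abs_of_nonneg (by linarith), ← exp_add, ← exp_add]
    congr 1; ring

lemma ou_law {J : Type} [Fintype J] (idx : J → Fin 2) (y x c : J → ℝ) :
    (gaussPi (Idx 2)).map (fun ω => ∑ j, ou (idx j) (y j) (x j) ω * c j) =
      gaussianReal 0
        (∑ j, ∑ l, (if idx j = idx l then
          c j * c l * (ee (y j) (y l) * ee (x j) (x l)) else 0)).toNNReal := by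
  set e := (Fintype.equivFin J).symm with he
  have h := sheet_law (d := 2) (Fintype.card J) (fun k => idx (e k)) (fun k => exp (y (e k)))
    (fun k => exp (x (e k))) (fun k => c (e k) * (exp (-y (e k) / 2) * exp (-x (e k) / 2)))
    (fun k => (exp_pos _).le) (fun k => (exp_pos _).le)
  convert h using 2
  · funext ω
    rw [← e.sum_comp]
    refine sum_congr rfl fun k _ => ?_
    unfold ou
    ring
  · rw [← e.sum_comp]
    congr 1
    refine sum_congr rfl fun k _ => ?_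
    rw [← e.sum_comp]
    refine sum_congr rfl fun l _ => ?_
    split_ifs with hkl
    · rw [← exp_min, ← exp_min]; ring
    · rfl

/-- The quadratic form of two families of window points. -/
noncomputable def QQ {k : ℕ} (σ : ℝ) (x x' : Fin k → ℝ) (ξ ξ' : Fin k × Fin 2 → ℝ) : ℝ :=
  ∑ i : Fin 2, ∑ j, ∑ l,
    cv σ (ξ (j, i)) (ξ' (j, i)) (x j) (x' j) (ξ (l, i)) (ξ' (l, i)) (x l) (x' l)

lemma ou_law2 {k : ℕ} (y y' : ℝ) (x x' : Fin k → ℝ) (ξ ξ' : Fin k × Fin 2 → ℝ) :
    (gaussPi (Idx 2)).map (fun ω => ∑ b : Fin k × Fin 2,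
        (ou b.2 y (x b.1) ω * ξ b + ou b.2 y' (x' b.1) ω * ξ' b)) =
      gaussianReal 0 (QQ (ee y y') x x' ξ ξ').toNNReal := by
  have h := ou_law (J := (Fin k × Fin 2) ⊕ (Fin k × Fin 2))
    (Sum.elim Prod.snd Prod.snd) (Sum.elim (fun _ => y) (fun _ => y'))
    (Sum.elim (fun b => x b.1) (fun b => x' b.1)) (Sum.elim ξ ξ')
  convert h using 2
  · funext ω
    rw [Fintype.sum_sum_type, ← sum_add_distrib]
    rfl
  · congr 1
    unfold QQ cv
    simp only [Fintype.sum_sum_type, Sum.elim_inl, Sum.elim_inr, ← sum_add_distrib,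
      Fintype.sum_prod_type, ee_self, ee_comm y' y]
    rw [sum_comm]
    refine sum_congr rfl fun j _ => sum_congr rfl fun i _ => sum_congr rfl fun l _ => ?_
    rw [sum_eq_single i]
    · simp only [if_true]
      ring
    · intro i' _ hi
      simp [hi.symm]
    · simp

lemma abs_ee_le (a b : ℝ) : |ee a b| ≤ 1 := by
  rw [abs_of_pos (ee_pos _ _)]; exact ee_le_one _ _

lemma QQ_lower {k : ℕ} {σ : ℝ} (hσ : |σ| ≤ 1) (x x' : Fin k → ℝ) (ξ ξ' : Fin k × Fin 2 → ℝ)
    (hx : ∀ j : Fin k, aa j ≤ x j ∧ x j ≤ 2 * aa j)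
    (hx' : ∀ j : Fin k, aa j ≤ x' j ∧ x' j ≤ 2 * aa j) :
    ∑ b : Fin k × Fin 2, (1 - (1 / 2 : ℝ) ^ (b.1.1 + 1)) *
        (ξ b ^ 2 + 2 * (σ * ee (x b.1) (x' b.1)) * ξ b * ξ' b + ξ' b ^ 2) ≤ QQ σ x x' ξ ξ' := by
  unfold QQ
  rw [Fintype.sum_prod_type, sum_comm]
  refine sum_le_sum fun i _ => ?_
  have h := (abs_le.1 (quad_bound hσ (fun j => ξ (j, i)) (fun j => ξ' (j, i)) x x' hx hx')).1
  simp_rw [cv_diag] at h
  simp_rw [sub_mul, one_mul, sum_sub_distrib]
  linarith

lemma QQ_upper {k : ℕ} {σ : ℝ} (hσ : |σ| ≤ 1) (x x' : Fin k → ℝ) (ξ ξ' : Fin k × Fin 2 → ℝ)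
    (hx : ∀ j : Fin k, aa j ≤ x j ∧ x j ≤ 2 * aa j)
    (hx' : ∀ j : Fin k, aa j ≤ x' j ∧ x' j ≤ 2 * aa j) :
    QQ σ x x' ξ ξ' ≤ ∑ b : Fin k × Fin 2, (1 + (1 / 2 : ℝ) ^ (b.1.1 + 1)) *
        (ξ b ^ 2 + 2 * (σ * ee (x b.1) (x' b.1)) * ξ b * ξ' b + ξ' b ^ 2) := by
  unfold QQ
  rw [Fintype.sum_prod_type, sum_comm (s := univ) (t := (univ : Finset (Fin 2)))]
  refine sum_le_sum fun i _ => ?_
  have h := (abs_le.1 (quad_bound hσ (fun j => ξ (j, i)) (fun j => ξ' (j, i)) x x' hx hx')).2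
  simp_rw [cv_diag] at h
  simp_rw [add_mul (1 : ℝ), one_mul, sum_add_distrib (f := fun j : Fin k =>
    ξ (j, i) ^ 2 + 2 * (σ * ee (x j) (x' j)) * ξ (j, i) * ξ' (j, i) + ξ' (j, i) ^ 2)]
  linarith

lemma half_pow_le (j : ℕ) : (1 / 2 : ℝ) ^ (j + 1) ≤ 1 / 2 := by
  rw [pow_succ]
  have : (1 / 2 : ℝ) ^ j ≤ 1 := pow_le_one₀ (by norm_num) (by norm_num)
  linarith

lemma QQ_nonneg {k : ℕ} {σ : ℝ} (hσ : |σ| ≤ 1) (x x' : Fin k → ℝ) (ξ ξ' : Fin k × Fin 2 → ℝ)
    (hx : ∀ j : Fin k, aa j ≤ x j ∧ x j ≤ 2 * aa j)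
    (hx' : ∀ j : Fin k, aa j ≤ x' j ∧ x' j ≤ 2 * aa j) : 0 ≤ QQ σ x x' ξ ξ' := by
  refine le_trans (sum_nonneg fun b _ => mul_nonneg ?_ ?_) (QQ_lower hσ x x' ξ ξ' hx hx')
  · have := half_pow_le b.1.1
    linarith
  · rw [← cv_diag]; exact cv_diag_nonneg hσ _ _ _ _

end Pool.Agent.MP_ba6658_pr

end

section

set_option autoImplicit false

open Finset Filter Topology MeasureTheory ProbabilityTheory Real
open scoped NNReal ENNReal

namespace Pool.Agent.MP_ba6658_pr

lemma gauss_upper {v : ℝ≥0} (hv : v ≠ 0) {A : ℝ} (hA : 0 < A) (m : ℝ) :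
    ∫ x, exp (-(A * (x + m) ^ 2) / 2) ∂(gaussianReal 0 v) ≤ (√(v * A))⁻¹ := by
  have hv0 : (0 : ℝ) < v := by positivity
  rw [integral_gaussianReal_eq_integral_smul hv]
  have hi : Integrable (fun x : ℝ => exp (-(A / 2) * (x + m) ^ 2)) :=
    (integrable_exp_neg_mul_sq (b := A / 2) (by positivity)).comp_add_right m
  calc ∫ x, gaussianPDFReal 0 v x • exp (-(A * (x + m) ^ 2) / 2)
      ≤ ∫ x, (√(2 * π * v))⁻¹ * exp (-(A / 2) * (x + m) ^ 2) := by
        refine integral_mono_of_nonneg (Eventually.of_forall fun x => ?_) (hi.const_mul _)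
          (Eventually.of_forall fun x => ?_)
        · exact mul_nonneg (gaussianPDFReal_nonneg _ _ _) (exp_pos _).le
        · simp only [smul_eq_mul]
          have e : -(A * (x + m) ^ 2) / 2 = -(A / 2) * (x + m) ^ 2 := by ring
          rw [e]
          refine mul_le_mul_of_nonneg_right ?_ (exp_pos _).le
          unfold gaussianPDFReal
          refine mul_le_of_le_one_right (by positivity) ?_
          rw [exp_le_one_iff, neg_div, neg_nonpos]
          positivity
    _ = (√(2 * π * v))⁻¹ * √(π / (A / 2)) := by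
        rw [integral_const_mul,
          integral_add_right_eq_self (fun x : ℝ => exp (-(A / 2) * x ^ 2)) m, integral_gaussian]
    _ = (√(v * A))⁻¹ := by
        rw [← sqrt_inv, ← sqrt_inv, ← sqrt_mul (by positivity)]
        congr 1
        field_simp

lemma gauss_exact {v : ℝ≥0} (hv : v ≠ 0) {A : ℝ} (hA : 0 ≤ A) :
    ∫ x, exp (-(A * x ^ 2) / 2) ∂(gaussianReal 0 v) = (√(1 + A * v))⁻¹ := by
  have hv0 : (0 : ℝ) < v := by positivity
  rw [integral_gaussianReal_eq_integral_smul hv]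
  have e : ∀ x : ℝ, gaussianPDFReal 0 v x • exp (-(A * x ^ 2) / 2)
      = (√(2 * π * v))⁻¹ * exp (-((1 + A * v) / (2 * v)) * x ^ 2) := by
    intro x
    unfold gaussianPDFReal
    rw [smul_eq_mul, mul_assoc, ← exp_add]
    congr 2
    field_simp
    ring
  simp_rw [e]
  rw [integral_const_mul, integral_gaussian, ← sqrt_inv, ← sqrt_inv, ← sqrt_mul (by positivity)]
  congr 1
  have : 0 < 1 + A * v := by positivity
  field_simp

lemma gauss_pair {v : ℝ≥0} (hv : v ≠ 0) {A r : ℝ} (hA : 0 < A) (hr : r ^ 2 < 1) :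
    ∫ z : ℝ × ℝ, exp (-(A * (z.1 ^ 2 + 2 * r * z.1 * z.2 + z.2 ^ 2)) / 2)
        ∂((gaussianReal 0 v).prod (gaussianReal 0 v))
      ≤ (v * A * √(1 - r ^ 2))⁻¹ := by
  have hv0 : (0 : ℝ) < v := by positivity
  have hD : 0 < A * (1 - r ^ 2) := mul_pos hA (by linarith)
  have e : ∀ z : ℝ × ℝ, exp (-(A * (z.1 ^ 2 + 2 * r * z.1 * z.2 + z.2 ^ 2)) / 2)
      = exp (-(A * (z.1 + r * z.2) ^ 2) / 2) * exp (-(A * (1 - r ^ 2) * (z.2 + 0) ^ 2) / 2) := by
    intro z
    rw [← exp_add]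
    congr 1
    ring
  simp_rw [e]
  have hb : ∀ (B y : ℝ), 0 ≤ B → exp (-(B * y ^ 2) / 2) ≤ 1 := by
    intro B y hB
    rw [exp_le_one_iff, neg_div, neg_nonpos]
    positivity
  have hint : Integrable (fun z : ℝ × ℝ => exp (-(A * (z.1 + r * z.2) ^ 2) / 2)
      * exp (-(A * (1 - r ^ 2) * (z.2 + 0) ^ 2) / 2))
      ((gaussianReal 0 v).prod (gaussianReal 0 v)) := by
    refine Integrable.of_bound (C := 1) (Measurable.aestronglyMeasurable (by fun_prop))
      (Eventually.of_forall fun z => ?_)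
    rw [Real.norm_eq_abs, abs_of_pos (by positivity)]
    exact mul_le_one₀ (hb _ _ hA.le) (exp_pos _).le (hb _ _ hD.le)
  rw [integral_prod_symm _ hint]
  simp only
  simp_rw [integral_mul_const]
  have hint2 : Integrable (fun y : ℝ => exp (-(A * (1 - r ^ 2) * (y + 0) ^ 2) / 2))
      (gaussianReal 0 v) := by
    refine Integrable.of_bound (C := 1) (Measurable.aestronglyMeasurable (by fun_prop))
      (Eventually.of_forall fun z => ?_)
    rw [Real.norm_eq_abs, abs_of_pos (by positivity)]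
    exact hb _ _ hD.le
  calc ∫ y, (∫ x, exp (-(A * (x + r * y) ^ 2) / 2) ∂(gaussianReal 0 v))
          * exp (-(A * (1 - r ^ 2) * (y + 0) ^ 2) / 2) ∂(gaussianReal 0 v)
      ≤ ∫ y, (√(v * A))⁻¹ * exp (-(A * (1 - r ^ 2) * (y + 0) ^ 2) / 2) ∂(gaussianReal 0 v) := by
        refine integral_mono_of_nonneg (Eventually.of_forall fun y => ?_) (hint2.const_mul _)
          (Eventually.of_forall fun y => ?_)
        · exact mul_nonneg (integral_nonneg fun x => (exp_pos _).le) (exp_pos _).le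
        · exact mul_le_mul_of_nonneg_right (gauss_upper hv hA _) (exp_pos _).le
    _ ≤ (√(v * A))⁻¹ * (√(v * (A * (1 - r ^ 2))))⁻¹ := by
        rw [integral_const_mul]
        exact mul_le_mul_of_nonneg_left (gauss_upper hv hD 0) (by positivity)
    _ = (v * A * √(1 - r ^ 2))⁻¹ := by
        rw [← mul_inv, ← mul_assoc, sqrt_mul (x := (v : ℝ) * A) (by positivity), ← mul_assoc,
          mul_self_sqrt (by positivity)]

lemma gauss_char (v : ℝ≥0) (z : ℝ) :
    ∫ x : ℝ, Complex.exp ((z * x : ℝ) * Complex.I) ∂(gaussianReal 0 v)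
      = ((exp (-(v * z ^ 2) / 2) : ℝ) : ℂ) := by
  have := charFun_gaussianReal (μ := 0) (v := v) z
  rw [charFun_apply_real] at this
  push_cast
  rw [this]
  congr 1
  push_cast
  ring

/-- Fourier exchange formula. -/
lemma fourier_exchange {Ω Ξ : Type*} [MeasurableSpace Ω] [MeasurableSpace Ξ]
    (P : Measure Ω) [IsProbabilityMeasure P] (μ : Measure Ξ) [IsProbabilityMeasure μ]
    (Φ : Ω → Ξ → ℝ) (hΦ : Measurable (Function.uncurry Φ)) (F : Ω → ℝ) (Q : Ξ → ℝ)
    (hQ : ∀ ξ, 0 ≤ Q ξ)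
    (hF : ∀ ω, ∫ ξ, Complex.exp (Φ ω ξ * Complex.I) ∂μ = (F ω : ℂ))
    (hlaw : ∀ ξ, P.map (fun ω => Φ ω ξ) = gaussianReal 0 (Q ξ).toNNReal) :
    ∫ ω, F ω ∂P = ∫ ξ, exp (-Q ξ / 2) ∂μ := by
  have hint : Integrable (Function.uncurry fun ω ξ => Complex.exp (Φ ω ξ * Complex.I))
      (P.prod μ) := by
    refine Integrable.of_bound (C := 1) (Measurable.aestronglyMeasurable ?_)
      (Eventually.of_forall fun z => ?_)
    · exact Complex.measurable_exp.comp
        ((Complex.measurable_ofReal.comp hΦ).mul measurable_const)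
    · exact (Complex.norm_exp_ofReal_mul_I _).le
  have h1 := integral_integral_swap hint
  simp_rw [hF] at h1
  have h2 : ∀ ξ, ∫ ω, Complex.exp (Φ ω ξ * Complex.I) ∂P = ((exp (-Q ξ / 2) : ℝ) : ℂ) := by
    intro ξ
    have hm : Measurable (fun ω => Φ ω ξ) := hΦ.comp (measurable_id.prodMk measurable_const)
    have h3 := gauss_char (Q ξ).toNNReal 1
    rw [← hlaw ξ, integral_map hm.aemeasurable (Measurable.aestronglyMeasurable (by fun_prop))]
      at h3
    simp only [one_mul, one_pow, mul_one, Real.coe_toNNReal _ (hQ ξ)] at h3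
    exact h3
  simp_rw [h2] at h1
  rw [integral_complex_ofReal, integral_complex_ofReal] at h1
  exact_mod_cast h1

end Pool.Agent.MP_ba6658_pr

end

section

set_option autoImplicit false

open Finset Filter Topology MeasureTheory ProbabilityTheory Real
open scoped NNReal ENNReal

namespace Pool.Agent.MP_ba6658_pr

/-- Gaussian mollifier of the event that the sheet vanishes at all the points `(y, x j)`. -/
noncomputable def EE {k : ℕ} (v : ℝ≥0) (y : ℝ) (x : Fin k → ℝ) (ω : Om) : ℝ :=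
  ∏ b : Fin k × Fin 2, exp (-(v * ou b.2 y (x b.1) ω ^ 2) / 2)

lemma exp_neg_le_one {t : ℝ} (ht : 0 ≤ t) : exp (-t / 2) ≤ 1 := by
  rw [exp_le_one_iff]; linarith

lemma EE_nonneg {k : ℕ} (v : ℝ≥0) (y : ℝ) (x : Fin k → ℝ) (ω : Om) : 0 ≤ EE v y x ω :=
  prod_nonneg fun _ _ => (exp_pos _).le

lemma EE_le_one {k : ℕ} (v : ℝ≥0) (y : ℝ) (x : Fin k → ℝ) (ω : Om) : EE v y x ω ≤ 1 :=
  prod_le_one (fun _ _ => (exp_pos _).le) (fun _ _ => exp_neg_le_one (by positivity))

lemma first_moment_pt {k : ℕ} {v : ℝ≥0} (hv : v ≠ 0) (hkv : (k : ℝ) ≤ v) (y : ℝ)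
    (x : Fin k → ℝ) (hx : ∀ j : Fin k, aa j ≤ x j ∧ x j ≤ 2 * aa j) :
    exp (-2) ≤ (v : ℝ) ^ k * ∫ ω, EE v y x ω ∂(gaussPi (Idx 2)) := by
  have hv0 : (0 : ℝ) < v := by positivity
  have hF := fourier_exchange (gaussPi (Idx 2))
    (Measure.pi (fun _ : Fin k × Fin 2 => gaussianReal 0 v))
    (fun ω ξ => ∑ b : Fin k × Fin 2,
        (ou b.2 y (x b.1) ω * ξ b + ou b.2 y (x b.1) ω * (0 : Fin k × Fin 2 → ℝ) b))
    (by
      refine Finset.measurable_sum _ fun b _ => ?_
      have h1 := measurable_ou b.2 y (x b.1)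
      exact ((h1.comp measurable_fst).mul ((measurable_pi_apply b).comp measurable_snd)).add
        ((h1.comp measurable_fst).mul measurable_const))
    (EE v y x) (fun ξ => QQ (ee y y) x x ξ 0)
    (fun ξ => QQ_nonneg (abs_ee_le _ _) x x ξ 0 hx hx)
    (by
      intro ω
      simp only [Pi.zero_apply, mul_zero, add_zero]
      have e : ∀ ξ : Fin k × Fin 2 → ℝ,
          Complex.exp ((∑ b : Fin k × Fin 2, ou b.2 y (x b.1) ω * ξ b : ℝ) * Complex.I)
          = ∏ b : Fin k × Fin 2,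
              Complex.exp ((ou b.2 y (x b.1) ω * ξ b : ℝ) * Complex.I) := by
        intro ξ
        rw [← Complex.exp_sum, Complex.ofReal_sum, sum_mul]
      simp_rw [e]
      rw [integral_fintype_prod_eq_prod
        (fun (b : Fin k × Fin 2) (t : ℝ) =>
          Complex.exp ((ou b.2 y (x b.1) ω * t : ℝ) * Complex.I))]
      simp_rw [gauss_char]
      unfold EE
      rw [Complex.ofReal_prod])
    (fun ξ => ou_law2 y y x x ξ 0)
  rw [hF]
  set g : Fin k → ℝ := fun j => (1 / 2 : ℝ) ^ (j.1 + 1) with hg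
  have hg0 : ∀ j, 0 ≤ g j := fun j => by simp only [hg]; positivity
  have h1 : ∫ ξ : Fin k × Fin 2 → ℝ, ∏ b : Fin k × Fin 2, exp (-((1 + g b.1) * ξ b ^ 2) / 2)
        ∂(Measure.pi (fun _ : Fin k × Fin 2 => gaussianReal 0 v))
      ≤ ∫ ξ, exp (-QQ (ee y y) x x ξ 0 / 2)
        ∂(Measure.pi (fun _ : Fin k × Fin 2 => gaussianReal 0 v)) := by
    refine integral_mono_of_nonneg
      (Eventually.of_forall fun ξ => prod_nonneg fun _ _ => (exp_pos _).le) ?_
      (Eventually.of_forall fun ξ => ?_)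
    · refine Integrable.of_bound (C := 1) (Measurable.aestronglyMeasurable ?_)
        (Eventually.of_forall fun ξ => ?_)
      · unfold QQ cv
        fun_prop
      · rw [Real.norm_eq_abs, abs_of_pos (exp_pos _)]
        exact exp_neg_le_one (QQ_nonneg (abs_ee_le _ _) x x ξ 0 hx hx)
    · simp only
      rw [← exp_sum, exp_le_exp]
      have := QQ_upper (abs_ee_le y y) x x ξ 0 hx hx
      simp only [Pi.zero_apply, mul_zero, add_zero, ne_eq, OfNat.ofNat_ne_zero,
        not_false_eq_true, zero_pow] at this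
      rw [← sum_div, sum_neg_distrib]
      simp only [hg]
      linarith
  refine le_trans ?_ (mul_le_mul_of_nonneg_left h1 (by positivity))
  rw [integral_fintype_prod_eq_prod
    (fun (b : Fin k × Fin 2) (t : ℝ) => exp (-((1 + g b.1) * t ^ 2) / 2))]
  have h2 : ∀ b : Fin k × Fin 2, ∫ t, exp (-((1 + g b.1) * t ^ 2) / 2) ∂(gaussianReal 0 v)
      = (√(1 + (1 + g b.1) * v))⁻¹ := fun b => gauss_exact hv (by linarith [hg0 b.1])
  simp_rw [h2]
  rw [Fintype.prod_prod_type]
  have h3 : (v : ℝ) ^ k = ∏ _j : Fin k, (v : ℝ) := by simp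
  rw [h3, ← prod_mul_distrib]
  have h4 : ∀ j : Fin k, exp (-(g j + 1 / v))
      ≤ (v : ℝ) * ∏ _i : Fin 2, (√(1 + (1 + g j) * v))⁻¹ := by
    intro j
    have hpos : 0 < 1 + (1 + g j) * v := by have := hg0 j; positivity
    rw [Fin.prod_univ_two, ← mul_inv, mul_self_sqrt hpos.le, exp_neg]
    have h5 := add_one_le_exp (g j + 1 / v)
    have h6 : (v : ℝ) * (1 + (1 + g j) * v)⁻¹ = (g j + 1 / v + 1)⁻¹ := by
      have := hg0 j
      field_simp
      ring
    rw [h6]
    exact inv_anti₀ (by have := hg0 j; positivity) h5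
  refine le_trans ?_ (prod_le_prod (fun j _ => (exp_pos _).le) (fun j _ => h4 j))
  rw [← exp_sum, exp_le_exp, sum_neg_distrib, sum_add_distrib]
  have h7 : ∑ j, g j ≤ 1 := sum_half_pow_le k
  have h8 : ∑ _j : Fin k, (1 / v : ℝ) ≤ 1 := by
    rw [sum_const, card_univ, Fintype.card_fin, nsmul_eq_mul, mul_one_div, div_le_one hv0]
    exact hkv
  linarith

lemma second_moment_pt {k : ℕ} {v : ℝ≥0} (hv : v ≠ 0) (y y' : ℝ) (hy : y ≠ y')
    (x x' : Fin k → ℝ) (hx : ∀ j : Fin k, aa j ≤ x j ∧ x j ≤ 2 * aa j)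
    (hx' : ∀ j : Fin k, aa j ≤ x' j ∧ x' j ≤ 2 * aa j) :
    (v : ℝ) ^ k * (v : ℝ) ^ k * ∫ ω, EE v y x ω * EE v y' x' ω ∂(gaussPi (Idx 2))
      ≤ exp 4 * ∏ j : Fin k, (1 - (ee y y' * ee (x j) (x' j)) ^ 2)⁻¹ := by
  have hv0 : (0 : ℝ) < v := by positivity
  have hF := fourier_exchange (gaussPi (Idx 2))
    (Measure.pi (fun _ : Fin k × Fin 2 => (gaussianReal 0 v).prod (gaussianReal 0 v)))
    (fun ω η => ∑ b : Fin k × Fin 2,
        (ou b.2 y (x b.1) ω * (η b).1 + ou b.2 y' (x' b.1) ω * (η b).2))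
    (by
      refine Finset.measurable_sum _ fun b _ => ?_
      have h1 := measurable_ou b.2 y (x b.1)
      have h2 := measurable_ou b.2 y' (x' b.1)
      exact ((h1.comp measurable_fst).mul
          (measurable_fst.comp ((measurable_pi_apply b).comp measurable_snd))).add
        ((h2.comp measurable_fst).mul
          (measurable_snd.comp ((measurable_pi_apply b).comp measurable_snd))))
    (fun ω => EE v y x ω * EE v y' x' ω)
    (fun η => QQ (ee y y') x x' (fun b => (η b).1) (fun b => (η b).2))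
    (fun η => QQ_nonneg (abs_ee_le _ _) x x' _ _ hx hx')
    (by
      intro ω
      have e : ∀ η : Fin k × Fin 2 → ℝ × ℝ,
          Complex.exp ((∑ b : Fin k × Fin 2,
            (ou b.2 y (x b.1) ω * (η b).1 + ou b.2 y' (x' b.1) ω * (η b).2) : ℝ) * Complex.I)
          = ∏ b : Fin k × Fin 2,
              (Complex.exp ((ou b.2 y (x b.1) ω * (η b).1 : ℝ) * Complex.I)
                * Complex.exp ((ou b.2 y' (x' b.1) ω * (η b).2 : ℝ) * Complex.I)) := by
        intro η
        simp_rw [← Complex.exp_add]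
        rw [← Complex.exp_sum, Complex.ofReal_sum, sum_mul]
        congr 1
        refine sum_congr rfl fun b _ => ?_
        push_cast
        ring
      simp_rw [e]
      rw [integral_fintype_prod_eq_prod
        (fun (b : Fin k × Fin 2) (t : ℝ × ℝ) =>
          Complex.exp ((ou b.2 y (x b.1) ω * t.1 : ℝ) * Complex.I)
            * Complex.exp ((ou b.2 y' (x' b.1) ω * t.2 : ℝ) * Complex.I))]
      have e2 : ∀ b : Fin k × Fin 2, ∫ t : ℝ × ℝ,
          Complex.exp ((ou b.2 y (x b.1) ω * t.1 : ℝ) * Complex.I)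
            * Complex.exp ((ou b.2 y' (x' b.1) ω * t.2 : ℝ) * Complex.I)
            ∂((gaussianReal 0 v).prod (gaussianReal 0 v))
          = ((exp (-(v * ou b.2 y (x b.1) ω ^ 2) / 2) : ℝ) : ℂ)
            * ((exp (-(v * ou b.2 y' (x' b.1) ω ^ 2) / 2) : ℝ) : ℂ) := by
        intro b
        rw [integral_prod_mul
          (fun t : ℝ => Complex.exp ((ou b.2 y (x b.1) ω * t : ℝ) * Complex.I))
          (fun t : ℝ => Complex.exp ((ou b.2 y' (x' b.1) ω * t : ℝ) * Complex.I)),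
          gauss_char, gauss_char]
      simp_rw [e2]
      unfold EE
      rw [prod_mul_distrib, Complex.ofReal_mul, Complex.ofReal_prod, Complex.ofReal_prod])
    (fun η => ou_law2 y y' x x' _ _)
  rw [hF]
  set g : Fin k → ℝ := fun j => (1 / 2 : ℝ) ^ (j.1 + 1) with hg
  set r : Fin k → ℝ := fun j => ee y y' * ee (x j) (x' j) with hr
  have hg0 : ∀ j, 0 ≤ g j := fun j => by simp only [hg]; positivity
  have hg1 : ∀ j, g j ≤ 1 / 2 := fun j => half_pow_le _
  have hσ : ee y y' < 1 := by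
    unfold ee
    rw [exp_lt_one_iff]
    have : 0 < |y - y'| := abs_pos.2 (sub_ne_zero.2 hy)
    linarith
  have hr1 : ∀ j, r j ^ 2 < 1 := by
    intro j
    have h1 : 0 ≤ r j := mul_nonneg (ee_pos _ _).le (ee_pos _ _).le
    have h2 : r j < 1 := mul_lt_one_of_nonneg_of_lt_one_left (ee_pos _ _).le hσ (ee_le_one _ _)
    nlinarith
  have hq : ∀ (j : Fin k) (t : ℝ × ℝ), 0 ≤ (1 - g j) * (t.1 ^ 2 + 2 * r j * t.1 * t.2 + t.2 ^ 2) := by
    intro j t
    refine mul_nonneg (by linarith [hg1 j]) ?_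
    simp only [hr]
    rw [← cv_diag]; exact cv_diag_nonneg (abs_ee_le _ _) _ _ _ _
  have h1 : ∫ η, exp (-QQ (ee y y') x x' (fun b => (η b).1) (fun b => (η b).2) / 2)
        ∂(Measure.pi (fun _ : Fin k × Fin 2 => (gaussianReal 0 v).prod (gaussianReal 0 v)))
      ≤ ∫ η : Fin k × Fin 2 → ℝ × ℝ, ∏ b : Fin k × Fin 2,
          exp (-((1 - g b.1) * ((η b).1 ^ 2 + 2 * r b.1 * (η b).1 * (η b).2 + (η b).2 ^ 2)) / 2)
        ∂(Measure.pi (fun _ : Fin k × Fin 2 => (gaussianReal 0 v).prod (gaussianReal 0 v))) := by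
    refine integral_mono_of_nonneg
      (Eventually.of_forall fun η => (exp_pos _).le) ?_
      (Eventually.of_forall fun η => ?_)
    · refine Integrable.of_bound (C := 1) (Measurable.aestronglyMeasurable ?_)
        (Eventually.of_forall fun η => ?_)
      · fun_prop
      · rw [Real.norm_eq_abs, abs_of_nonneg (prod_nonneg fun _ _ => (exp_pos _).le)]
        exact prod_le_one (fun _ _ => (exp_pos _).le) (fun b _ => exp_neg_le_one (hq b.1 (η b)))
    · simp only
      rw [← exp_sum, exp_le_exp]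
      have := QQ_lower (abs_ee_le y y') x x' (fun b => (η b).1) (fun b => (η b).2) hx hx'
      rw [← sum_div, sum_neg_distrib]
      simp only [hg, hr]
      linarith
  refine le_trans (mul_le_mul_of_nonneg_left h1 (by positivity)) ?_
  rw [integral_fintype_prod_eq_prod
    (fun (b : Fin k × Fin 2) (t : ℝ × ℝ) =>
      exp (-((1 - g b.1) * (t.1 ^ 2 + 2 * r b.1 * t.1 * t.2 + t.2 ^ 2)) / 2))]
  have h2 : ∏ b : Fin k × Fin 2, ∫ t : ℝ × ℝ,
      exp (-((1 - g b.1) * (t.1 ^ 2 + 2 * r b.1 * t.1 * t.2 + t.2 ^ 2)) / 2)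
        ∂((gaussianReal 0 v).prod (gaussianReal 0 v))
      ≤ ∏ b : Fin k × Fin 2, (v * (1 - g b.1) * √(1 - r b.1 ^ 2))⁻¹ :=
    prod_le_prod (fun b _ => integral_nonneg fun t => (exp_pos _).le)
      (fun b _ => gauss_pair hv (by linarith [hg1 b.1]) (hr1 b.1))
  refine le_trans (mul_le_mul_of_nonneg_left h2 (by positivity)) ?_
  rw [Fintype.prod_prod_type]
  have h3 : (v : ℝ) ^ k = ∏ _j : Fin k, (v : ℝ) := by simp
  rw [h3, ← prod_mul_distrib, ← prod_mul_distrib]
  have h4 : ∀ j : Fin k, (v : ℝ) * v * ∏ _i : Fin 2, (v * (1 - g j) * √(1 - r j ^ 2))⁻¹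
      ≤ exp (4 * g j) * (1 - r j ^ 2)⁻¹ := by
    intro j
    have hA : 0 < 1 - g j := by linarith [hg1 j]
    have hR : 0 < 1 - r j ^ 2 := by linarith [hr1 j]
    have hs : √(1 - r j ^ 2) * √(1 - r j ^ 2) = 1 - r j ^ 2 := mul_self_sqrt hR.le
    have hs0 : 0 < √(1 - r j ^ 2) := sqrt_pos.2 hR
    have e1 : (v : ℝ) * v * ∏ _i : Fin 2, (v * (1 - g j) * √(1 - r j ^ 2))⁻¹
        = ((1 - g j)⁻¹ * (1 - g j)⁻¹) * (√(1 - r j ^ 2) * √(1 - r j ^ 2))⁻¹ := by
      rw [Fin.prod_univ_two]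
      field_simp
    rw [e1, hs]
    refine mul_le_mul_of_nonneg_right ?_ (by positivity)
    have h5 : (1 - g j)⁻¹ ≤ exp (2 * g j) := by
      rw [inv_le_iff_one_le_mul₀ hA]
      have h6 := add_one_le_exp (2 * g j)
      have := hg0 j
      have := hg1 j
      nlinarith
    calc (1 - g j)⁻¹ * (1 - g j)⁻¹ ≤ exp (2 * g j) * exp (2 * g j) :=
          mul_le_mul h5 h5 (by positivity) (exp_pos _).le
      _ = exp (4 * g j) := by rw [← exp_add]; congr 1; ring
  refine le_trans (prod_le_prod (fun j _ => ?_) (fun j _ => h4 j)) ?_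
  · have hA : 0 < 1 - g j := by linarith [hg1 j]
    exact mul_nonneg (by positivity) (prod_nonneg fun _ _ => by positivity)
  rw [prod_mul_distrib, ← exp_sum]
  refine mul_le_mul_of_nonneg_right ?_
    (prod_nonneg fun j _ => inv_nonneg.2 (by linarith [hr1 j]))
  rw [exp_le_exp, ← mul_sum]
  have h7 : ∑ j, g j ≤ 1 := sum_half_pow_le k
  linarith

end Pool.Agent.MP_ba6658_pr

end

section

set_option autoImplicit false

open Finset Filter Topology MeasureTheory ProbabilityTheory Real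
open scoped NNReal ENNReal

namespace Pool.Agent.MP_ba6658_pr

lemma no_concentration {Ω : Type*} [MeasurableSpace Ω] (P : Measure Ω) [IsProbabilityMeasure P]
    (X : ℕ → Ω → ℝ) (hm : ∀ n, Measurable (X n)) (h0 : ∀ n ω, 0 ≤ X n ω)
    (hb : ∀ n, ∃ B, ∀ ω, X n ω ≤ B) {c C : ℝ} (hc : 0 < c) (hC : 0 < C)
    (h1 : ∀ n, c ≤ ∫ ω, X n ω ∂P) (h2 : ∀ n, ∫ ω, X n ω ^ 2 ∂P ≤ C)
    (hlim : ∀ᵐ ω ∂P, Tendsto (fun n => X n ω) atTop (𝓝 0)) : False := by
  set M : ℝ := 2 * C / c with hM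
  have hM0 : 0 < M := by positivity
  have hlim2 : Tendsto (fun n => ∫ ω, min (X n ω) M ∂P) atTop (𝓝 (∫ _ω, (0 : ℝ) ∂P)) := by
    refine tendsto_integral_of_dominated_convergence (fun _ => M) (fun n => ?_)
      (integrable_const _) (fun n => Eventually.of_forall fun ω => ?_) ?_
    · exact ((hm n).min measurable_const).aestronglyMeasurable
    · rw [Real.norm_eq_abs, abs_of_nonneg (le_min (h0 n ω) hM0.le)]
      exact min_le_right _ _
    · filter_upwards [hlim] with ω hω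
      have := hω.min (tendsto_const_nhds (x := M))
      rwa [min_eq_left hM0.le] at this
  rw [integral_zero] at hlim2
  have hlow : ∀ n, c / 2 ≤ ∫ ω, min (X n ω) M ∂P := by
    intro n
    obtain ⟨B, hB⟩ := hb n
    have i1 : Integrable (fun ω => min (X n ω) M) P := by
      refine Integrable.of_bound (C := M) ((hm n).min measurable_const).aestronglyMeasurable
        (Eventually.of_forall fun ω => ?_)
      rw [Real.norm_eq_abs, abs_of_nonneg (le_min (h0 n ω) hM0.le)]
      exact min_le_right _ _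
    have i2 : Integrable (fun ω => X n ω ^ 2) P := by
      refine Integrable.of_bound (C := B ^ 2) ((hm n).pow_const 2).aestronglyMeasurable
        (Eventually.of_forall fun ω => ?_)
      rw [Real.norm_eq_abs, abs_of_nonneg (sq_nonneg _)]
      exact pow_le_pow_left₀ (h0 n ω) (hB ω) 2
    have h3 : ∫ ω, X n ω ∂P ≤ ∫ ω, (min (X n ω) M + X n ω ^ 2 / M) ∂P := by
      refine integral_mono_of_nonneg (Eventually.of_forall (h0 n)) (i1.add (i2.div_const M))
        (Eventually.of_forall fun ω => ?_)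
      simp only
      rcases le_total (X n ω) M with h | h
      · rw [min_eq_left h]
        have : 0 ≤ X n ω ^ 2 / M := by positivity
        linarith
      · rw [min_eq_right h]
        have : X n ω ≤ X n ω ^ 2 / M := by
          rw [le_div_iff₀ hM0]
          have := h0 n ω
          nlinarith
        linarith
    rw [integral_add i1 (i2.div_const M), integral_div] at h3
    have h4 : (∫ ω, X n ω ^ 2 ∂P) / M ≤ C / M := div_le_div_of_nonneg_right (h2 n) hM0.le
    have h5 : C / M = c / 2 := by rw [hM]; field_simp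
    have := h1 n
    linarith
  have := ge_of_tendsto' hlim2 hlow
  linarith

lemma integrable_unit {α : Type*} [MeasurableSpace α] (μ : Measure α) [IsFiniteMeasure μ]
    {f : α → ℝ} (hf : Measurable f) (h0 : ∀ a, 0 ≤ f a) (h1 : ∀ a, f a ≤ 1) : Integrable f μ :=
  Integrable.of_bound (C := 1) hf.aestronglyMeasurable (Eventually.of_forall fun a => by
    rw [Real.norm_eq_abs, abs_of_nonneg (h0 a)]; exact h1 a)

lemma integral_unit_le {α : Type*} [MeasurableSpace α] (μ : Measure α) [IsProbabilityMeasure μ]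
    {f : α → ℝ} (h0 : ∀ a, 0 ≤ f a) {B : ℝ} (h1 : ∀ a, f a ≤ B) : ∫ a, f a ∂μ ≤ B := by
  have := integral_mono_of_nonneg (μ := μ) (Eventually.of_forall h0) (integrable_const B)
    (Eventually.of_forall h1)
  simpa using this

lemma second_moment_general {Θ Ω : Type*} [MeasurableSpace Θ] [MeasurableSpace Ω]
    (μ : Measure Θ) [IsProbabilityMeasure μ] (P : Measure Ω) [IsProbabilityMeasure P]
    (H : Θ → Ω → ℝ) (hm : Measurable (fun q : Θ × Ω => H q.1 q.2))
    (h0 : ∀ θ ω, 0 ≤ H θ ω) (h1 : ∀ θ ω, H θ ω ≤ 1) {C : ℝ}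
    (hC : ∀ θ, ∫ θ', (∫ ω, H θ ω * H θ' ω ∂P) ∂μ ≤ C) :
    ∫ ω, (∫ θ, H θ ω ∂μ) ^ 2 ∂P ≤ C := by
  have hX : Measurable (fun ω => ∫ θ, H θ ω ∂μ) :=
    (hm.stronglyMeasurable.integral_prod_left' (μ := μ)).measurable
  have hX0 : ∀ ω, 0 ≤ ∫ θ, H θ ω ∂μ := fun ω => integral_nonneg fun θ => h0 θ ω
  have hX1 : ∀ ω, ∫ θ, H θ ω ∂μ ≤ 1 := fun ω => integral_unit_le μ (fun θ => h0 θ ω) fun θ => h1 θ ω
  have e1 : ∀ ω, (∫ θ, H θ ω ∂μ) ^ 2 = ∫ θ, H θ ω * (∫ θ', H θ' ω ∂μ) ∂μ := by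
    intro ω
    rw [integral_mul_const, pow_two]
  simp_rw [e1]
  rw [← integral_integral_swap (f := fun θ ω => H θ ω * (∫ θ', H θ' ω ∂μ))]
  · refine integral_unit_le μ (fun θ => integral_nonneg fun ω => mul_nonneg (h0 θ ω) (hX0 ω))
      fun θ => ?_
    simp_rw [← integral_const_mul]
    rw [← integral_integral_swap (f := fun θ' ω => H θ ω * H θ' ω)]
    · exact hC θ
    · refine integrable_unit _ ?_ (fun q => mul_nonneg (h0 _ _) (h0 _ _))
        (fun q => mul_le_one₀ (h1 _ _) (h0 _ _) (h1 _ _))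
      exact (hm.comp (measurable_const.prodMk measurable_snd)).mul hm
  · refine integrable_unit _ ?_ (fun q => mul_nonneg (h0 _ _) (hX0 _))
      (fun q => mul_le_one₀ (h1 _ _) (hX0 _) (hX1 _))
    exact hm.mul (hX.comp measurable_snd)

/-- Parameter measure. -/
noncomputable def mu (k : ℕ) : Measure (ℝ × (Fin k → ℝ)) := nu.prod (Measure.pi fun _ => nu)

instance (k : ℕ) : IsProbabilityMeasure (mu k) := by unfold mu; infer_instance

/-- The mollifier as a function of the parameter. -/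
noncomputable def HH (k : ℕ) (v : ℝ≥0) (θ : ℝ × (Fin k → ℝ)) (ω : Om) : ℝ :=
  EE v (cl θ.1) (fun j => pos j (θ.2 j)) ω

lemma HH_meas (k : ℕ) (v : ℝ≥0) :
    Measurable (fun q : (ℝ × (Fin k → ℝ)) × Om => HH k v q.1 q.2) := by
  unfold HH EE
  refine Finset.measurable_prod _ fun b _ => ?_
  have h1 : Measurable (fun q : (ℝ × (Fin k → ℝ)) × Om =>
      ou b.2 (cl q.1.1) (pos b.1 (q.1.2 b.1)) q.2) := by
    have h2 : Measurable (fun q : (ℝ × (Fin k → ℝ)) × Om =>
        ((cl q.1.1, pos b.1 (q.1.2 b.1)), q.2)) := by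
      have := cl_cont.measurable
      have := (pos_cont b.1).measurable
      fun_prop
    exact (ou_joint b.2).comp h2
  fun_prop

lemma first_moment {k : ℕ} {v : ℝ≥0} (hv : v ≠ 0) (hkv : (k : ℝ) ≤ v) :
    exp (-2) ≤ ∫ ω, (v : ℝ) ^ k * ∫ θ, HH k v θ ω ∂(mu k) ∂(gaussPi (Idx 2)) := by
  rw [integral_const_mul, ← integral_integral_swap (f := fun θ ω => HH k v θ ω), ← integral_const_mul]
  · have h := integral_mono_of_nonneg (μ := mu k) (f := fun _ => exp (-2))
      (g := fun θ => (v : ℝ) ^ k * ∫ ω, HH k v θ ω ∂(gaussPi (Idx 2)))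
      (Eventually.of_forall fun _ => (exp_pos _).le) ?_
      (Eventually.of_forall fun θ => first_moment_pt hv hkv _ _ (fun j => pos_mem j _))
    · simpa using h
    · refine Integrable.const_mul (integrable_unit _ ?_
        (fun θ => integral_nonneg fun ω => EE_nonneg _ _ _ _)
        (fun θ => integral_unit_le _ (fun ω => EE_nonneg _ _ _ _) fun ω => EE_le_one _ _ _ _)) _
      exact ((HH_meas k v).stronglyMeasurable.integral_prod_right'
        (ν := gaussPi (Idx 2))).measurable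
  · exact integrable_unit _ (f := fun q : (ℝ × (Fin k → ℝ)) × Om => HH k v q.1 q.2) (HH_meas k v)
      (fun q => EE_nonneg v (cl q.1.1) (fun j => pos j (q.1.2 j)) q.2)
      (fun q => EE_le_one v (cl q.1.1) (fun j => pos j (q.1.2 j)) q.2)

lemma second_moment {k : ℕ} {v : ℝ≥0} (hv : v ≠ 0) :
    ∫ ω, ((v : ℝ) ^ k * ∫ θ, HH k v θ ω ∂(mu k)) ^ 2 ∂(gaussPi (Idx 2)) ≤ exp 4 * 8 := by
  have hv0 : (0 : ℝ) < v := by positivity
  have hvk : (0 : ℝ) < (v : ℝ) ^ k * (v : ℝ) ^ k := by positivity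
  simp_rw [mul_pow]
  rw [integral_const_mul, pow_two ((v : ℝ) ^ k), ← le_div_iff₀' hvk]
  refine second_moment_general (mu k) _ (HH k v) (HH_meas k v) (fun _ _ => EE_nonneg _ _ _ _)
    (fun _ _ => EE_le_one _ _ _ _) fun θ => ?_
  rw [le_div_iff₀' hvk, ← integral_const_mul]
  set G : ℝ × (Fin k → ℝ) → ℝ := fun θ' =>
    (v : ℝ) ^ k * (v : ℝ) ^ k * ∫ ω, HH k v θ ω * HH k v θ' ω ∂(gaussPi (Idx 2)) with hG
  have hG0 : ∀ θ', 0 ≤ G θ' := fun θ' => mul_nonneg hvk.le
    (integral_nonneg fun ω => mul_nonneg (EE_nonneg _ _ _ _) (EE_nonneg _ _ _ _))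
  have hGi : Integrable G (mu k) := by
    refine Integrable.const_mul (integrable_unit _ ?_
      (fun θ' => integral_nonneg fun ω => mul_nonneg (EE_nonneg _ _ _ _) (EE_nonneg _ _ _ _))
      (fun θ' => integral_unit_le _ (fun ω => mul_nonneg (EE_nonneg _ _ _ _) (EE_nonneg _ _ _ _))
        fun ω => mul_le_one₀ (EE_le_one _ _ _ _) (EE_nonneg _ _ _ _) (EE_le_one _ _ _ _))) _
    have h1 : Measurable (fun q : (ℝ × (Fin k → ℝ)) × Om => HH k v θ q.2 * HH k v q.1 q.2) :=
      ((HH_meas k v).comp (measurable_const.prodMk measurable_snd)).mul (HH_meas k v)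
    exact (h1.stronglyMeasurable.integral_prod_right' (ν := gaussPi (Idx 2))).measurable
  unfold mu at hGi ⊢
  rw [integral_prod _ hGi]
  set y := cl θ.1 with hy
  have hy0 : 0 ≤ y := cl_nonneg _
  have hy1 : y ≤ 1 := cl_le_one _
  have hne : ∀ᵐ y' ∂nu, y' ≠ y := by
    unfold nu
    exact ae_restrict_of_ae (by simp [ae_iff])
  have hmem : ∀ᵐ y' ∂nu, y' ∈ Set.Ioc (0 : ℝ) 1 := ae_restrict_mem measurableSet_Ioc
  calc ∫ y', ∫ u, G (y', u) ∂(Measure.pi fun _ => nu) ∂nu
      ≤ ∫ y', exp 4 * (2 * |y - y'| ^ (-1 / 2 : ℝ)) ∂nu := by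
        refine integral_mono_of_nonneg
          (Eventually.of_forall fun y' => integral_nonneg fun u => hG0 _)
          (((sing_integrable hy0 hy1).const_mul _).const_mul _) ?_
        filter_upwards [hne, hmem] with y' h1 h2
        have hcl : cl y' = y' := cl_of_mem h2.1.le h2.2
        have hσ : ee y y' ^ 2 < 1 := by
          rw [ee_sq, exp_lt_one_iff]
          have : 0 < |y - y'| := abs_pos.2 (sub_ne_zero.2 h1.symm)
          linarith
        have h3 : |y - y'| ≤ 1 := by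
          rw [abs_le]; constructor <;> linarith [h2.1, h2.2]
        calc ∫ u, G (y', u) ∂(Measure.pi fun _ => nu)
            ≤ ∫ u : Fin k → ℝ, exp 4 * ∏ j : Fin k,
                (1 - (ee y y' * ee (pos j (θ.2 j)) (pos j (u j))) ^ 2)⁻¹
                ∂(Measure.pi fun _ => nu) := by
              refine integral_mono_of_nonneg (Eventually.of_forall fun u => hG0 _)
                (Integrable.const_mul ?_ _) (Eventually.of_forall fun u => ?_)
              · exact Integrable.fintype_prod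
                  (f := fun (j : Fin k) (t : ℝ) =>
                    (1 - (ee y y' * ee (pos j (θ.2 j)) (pos j t)) ^ 2)⁻¹)
                  (fun j => window_integrable hσ j (θ.2 j))
              · simp only [hG, HH, hcl]
                exact second_moment_pt hv y y' h1.symm _ _ (fun j => pos_mem j _)
                  (fun j => pos_mem j _)
          _ ≤ exp 4 * (2 * |y - y'| ^ (-1 / 2 : ℝ)) := by
              rw [integral_const_mul]
              exact mul_le_mul_of_nonneg_left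
                ((windows_bound hσ θ.2).trans (sing_le h1.symm h3)) (exp_pos _).le
    _ ≤ exp 4 * 8 := by
        rw [integral_const_mul, integral_const_mul]
        have := sing_bound hy0 hy1
        exact mul_le_mul_of_nonneg_left (by linarith) (exp_pos _).le

lemma aa_tendsto : Tendsto aa atTop atTop := by
  unfold aa
  exact (tendsto_pow_atTop_atTop_of_one_lt (by norm_num : (1 : ℝ) < 4)).comp
    (tendsto_add_atTop_nat 2)

lemma uniform_gap (ω : Om)
    (hω : ∀ s : ℝ, 0 < s → Set.Finite {t : ℝ | 0 < t ∧ ∀ i : Fin 2, sheet i s t ω = 0}) :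
    ∃ n : ℕ, ∀ y ∈ Set.Icc (0 : ℝ) 1, ∃ j < n, ∀ x ∈ Set.Icc (aa j) (2 * aa j),
      1 / ((n : ℝ) + 1) < ou 0 y x ω ^ 2 + ou 1 y x ω ^ 2 := by
  set f : ℝ × ℝ → ℝ := fun p => ou 0 p.1 p.2 ω ^ 2 + ou 1 p.1 p.2 ω ^ 2 with hf
  have hfc : Continuous f := ((ou_cont 0 ω).pow 2).add ((ou_cont 1 ω).pow 2)
  set U : ℕ → Set ℝ := fun n =>
    {y | ∃ j < n, ∀ x ∈ Set.Icc (aa j) (2 * aa j), 1 / ((n : ℝ) + 1) < f (y, x)} with hU
  have hopen : ∀ n, IsOpen (U n) := by
    intro n
    rw [isOpen_iff_mem_nhds]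
    rintro y ⟨j, hj, hy⟩
    have := (isCompact_Icc (a := aa j) (b := 2 * aa j)).eventually_forall_of_forall_eventually
      (x₀ := y) (P := fun y x => 1 / ((n : ℝ) + 1) < f (y, x)) (fun x hx =>
        hfc.continuousAt.eventually (lt_mem_nhds (hy x hx)))
    filter_upwards [this] with y' hy'
    exact ⟨j, hj, hy'⟩
  have hmono : Monotone U := by
    intro n m hnm y ⟨j, hj, hy⟩
    refine ⟨j, lt_of_lt_of_le hj hnm, fun x hx => lt_of_le_of_lt ?_ (hy x hx)⟩
    exact Nat.one_div_le_one_div hnm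
  have hcover : Set.Icc (0 : ℝ) 1 ⊆ ⋃ n, U n := by
    intro y _
    obtain ⟨T, hT⟩ := (hω (exp y) (exp_pos y)).bddAbove
    obtain ⟨j, hj⟩ := (aa_tendsto.eventually_gt_atTop T).exists
    have hpos : ∀ x ∈ Set.Icc (aa j) (2 * aa j), 0 < f (y, x) := by
      intro x hx
      by_contra hcon
      have h0 : ou 0 y x ω ^ 2 + ou 1 y x ω ^ 2 ≤ 0 := not_lt.1 hcon
      have h1 : ou 0 y x ω = 0 := by nlinarith [sq_nonneg (ou 0 y x ω), sq_nonneg (ou 1 y x ω)]
      have h2 : ou 1 y x ω = 0 := by nlinarith [sq_nonneg (ou 0 y x ω), sq_nonneg (ou 1 y x ω)]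
      have h3 : ∀ i : Fin 2, ou i y x ω = 0 → sheet i (exp y) (exp x) ω = 0 := by
        intro i hi
        unfold ou at hi
        exact (mul_eq_zero.1 hi).resolve_left (by positivity)
      have h4 : exp x ≤ T := hT ⟨exp_pos x, fun i => by
        fin_cases i
        · exact h3 0 h1
        · exact h3 1 h2⟩
      have h5 := add_one_le_exp x
      linarith [hx.1]
    obtain ⟨x0, hx0, hmin⟩ := (isCompact_Icc (a := aa j) (b := 2 * aa j)).exists_isMinOn
      (f := fun x => f (y, x)) ⟨aa j, le_rfl, by linarith [aa_pos j]⟩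
      (hfc.comp (continuous_const.prodMk continuous_id)).continuousOn
    obtain ⟨n, hn⟩ := exists_nat_one_div_lt (hpos x0 hx0)
    refine Set.mem_iUnion.2 ⟨max n (j + 1), j, by omega, fun x hx => ?_⟩
    refine lt_of_le_of_lt (Nat.one_div_le_one_div (le_max_left n (j + 1))) (hn.trans_le (hmin hx))
  obtain ⟨n, hn⟩ := isCompact_Icc.elim_directed_cover U hopen hcover hmono.directed_le
  exact ⟨n, fun y hy => hn hy⟩

lemma decay {δ : ℝ} (hδ : 0 < δ) :
    Tendsto (fun k : ℕ => (((k : ℝ) + 1) ^ 2) ^ k * exp (-(((k : ℝ) + 1) ^ 2 * δ) / 2))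
      atTop (𝓝 0) := by
  have h1 : Tendsto (fun k : ℕ => ((k : ℝ) + 1) * (δ / 2)) atTop atTop :=
    (tendsto_atTop_add_const_right _ 1 tendsto_natCast_atTop_atTop).atTop_mul_const (by positivity)
  have h2 : Tendsto (fun k : ℕ => ((k : ℝ) + 1) ^ 2 * exp (-(((k : ℝ) + 1) * (δ / 2))))
      atTop (𝓝 0) := by
    have h3 := ((tendsto_pow_mul_exp_neg_atTop_nhds_zero 2).comp h1).const_mul ((2 / δ) ^ 2)
    rw [mul_zero] at h3
    refine h3.congr fun k => ?_
    simp only [Function.comp]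
    field_simp
  refine squeeze_zero' (Eventually.of_forall fun k => by positivity) ?_ h2
  filter_upwards [h2.eventually (ge_mem_nhds zero_lt_one)] with k hk
  set a := ((k : ℝ) + 1) ^ 2 * exp (-(((k : ℝ) + 1) * (δ / 2))) with ha
  have ha0 : 0 ≤ a := by positivity
  have h4 : (1 : ℝ) ≤ ((k : ℝ) + 1) ^ 2 := one_le_pow₀ (by linarith [Nat.cast_nonneg (α := ℝ) k])
  calc (((k : ℝ) + 1) ^ 2) ^ k * exp (-(((k : ℝ) + 1) ^ 2 * δ) / 2)
      ≤ (((k : ℝ) + 1) ^ 2) ^ (k + 1) * exp (-(((k : ℝ) + 1) ^ 2 * δ) / 2) :=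
        mul_le_mul_of_nonneg_right (pow_le_pow_right₀ h4 (Nat.le_succ k)) (exp_pos _).le
    _ = a ^ (k + 1) := by
        rw [ha, mul_pow, ← exp_nat_mul]
        congr 2
        push_cast
        ring
    _ ≤ a := pow_le_of_le_one ha0 hk (Nat.succ_ne_zero k)

lemma EE_le_gap {k : ℕ} (v : ℝ≥0) (y : ℝ) (x : Fin k → ℝ) (ω : Om) (j : Fin k) {δ : ℝ}
    (h : δ ≤ ou 0 y (x j) ω ^ 2 + ou 1 y (x j) ω ^ 2) : EE v y x ω ≤ exp (-(v * δ) / 2) := by
  unfold EE
  rw [← exp_sum, exp_le_exp, ← sum_div, sum_neg_distrib, ← mul_sum, Fintype.sum_prod_type]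
  have h1 : ∑ i : Fin 2, ou i y (x j) ω ^ 2 ≤ ∑ l : Fin k, ∑ i : Fin 2, ou i y (x l) ω ^ 2 :=
    single_le_sum (f := fun l : Fin k => ∑ i : Fin 2, ou i y (x l) ω ^ 2)
      (fun l _ => sum_nonneg fun i _ => sq_nonneg _) (mem_univ j)
  rw [Fin.sum_univ_two] at h1
  have h2 := mul_le_mul_of_nonneg_left (h.trans h1) v.coe_nonneg
  simp only
  linarith

theorem not_ae_finite : ¬ ∀ᵐ ω ∂(gaussPi (Idx 2)), ∀ s : ℝ, 0 < s →
    Set.Finite {t : ℝ | 0 < t ∧ ∀ i : Fin 2, sheet i s t ω = 0} := by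
  intro h
  set v : ℕ → ℝ≥0 := fun k => ((k : ℝ≥0) + 1) ^ 2 with hv
  have hv0 : ∀ k, v k ≠ 0 := fun k => by simp only [hv]; positivity
  have hvc : ∀ k, (v k : ℝ) = ((k : ℝ) + 1) ^ 2 := fun k => by simp [hv]
  refine no_concentration (gaussPi (Idx 2))
    (fun k ω => (v k : ℝ) ^ k * ∫ θ, HH k (v k) θ ω ∂(mu k)) (fun k => ?_) (fun k ω => ?_)
    (fun k => ⟨(v k : ℝ) ^ k * 1, fun ω => ?_⟩) (c := exp (-2)) (C := exp 4 * 8) (exp_pos _)
    (by positivity) (fun k => first_moment (hv0 k) ?_) (fun k => second_moment (hv0 k)) ?_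
  · exact measurable_const.mul
      ((HH_meas k (v k)).stronglyMeasurable.integral_prod_left' (μ := mu k)).measurable
  · exact mul_nonneg (by positivity) (integral_nonneg fun θ => EE_nonneg _ _ _ _)
  · exact mul_le_mul_of_nonneg_left
      (integral_unit_le _ (fun θ => EE_nonneg _ _ _ _) fun θ => EE_le_one _ _ _ _) (by positivity)
  · rw [hvc]
    nlinarith [Nat.cast_nonneg (α := ℝ) k]
  · filter_upwards [h] with ω hω
    obtain ⟨n, hn⟩ := uniform_gap ω hω
    refine squeeze_zero' (Eventually.of_forall fun k =>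
      mul_nonneg (by positivity) (integral_nonneg fun θ => EE_nonneg _ _ _ _)) ?_
      (decay (δ := 1 / ((n : ℝ) + 1)) (by positivity))
    filter_upwards [eventually_ge_atTop n] with k hk
    rw [← hvc]
    refine mul_le_mul_of_nonneg_left
      (integral_unit_le _ (fun θ => EE_nonneg _ _ _ _) fun θ => ?_) (by positivity)
    obtain ⟨j, hj, hx⟩ := hn (cl θ.1) ⟨cl_nonneg _, cl_le_one _⟩
    exact EE_le_gap (v k) _ _ ω ⟨j, lt_of_lt_of_le hj hk⟩ (hx _ (pos_mem j _)).le

end Pool.Agent.MP_ba6658_pr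

end
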